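import Mathlib

/-!
# Abstract unit balls of functions

A set `B` of real functions on a set `Γ`, bounded by one, absolutely convex and closed under pointwise
suprema of sequences; `Bl B L = L • B`.
-/

namespace Pool.Agent.MP312e4a

open Filter Topology

variable {Γ : Type*}

/-- axioms of the unit ball -/
structure IsBall (B : Set (Γ → ℝ)) : Prop where
  zero : (0 : Γ → ℝ) ∈ B
  bdd : ∀ h ∈ B, ∀ x, |h x| ≤ 1
  comb : ∀ h ∈ B, ∀ g ∈ B, ∀ s t : ℝ, |s| + |t| ≤ 1 → s • h + t • g ∈ B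
  sup : ∀ f : ℕ → Γ → ℝ, (∀ n, f n ∈ B) → (fun x => ⨆ n, f n x) ∈ B

/-- the multiple `L • B` -/
def Bl (B : Set (Γ → ℝ)) (L : ℝ) : Set (Γ → ℝ) := {h | ∃ g ∈ B, h = L • g}

/-- the span of `B` -/
def Wd (B : Set (Γ → ℝ)) (h : Γ → ℝ) : Prop := ∃ L, 0 ≤ L ∧ h ∈ Bl B L

/-- linear functionals on the span of `B` -/
def IsLin (B : Set (Γ → ℝ)) (φ : (Γ → ℝ) → ℝ) : Prop :=
  ∀ h g, Wd B h → Wd B g → ∀ s t : ℝ, φ (s • h + t • g) = s * φ h + t * φ g

section basic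

variable {B : Set (Γ → ℝ)} (hB : IsBall B)
include hB

theorem Bl_bdd {L : ℝ} (hL : 0 ≤ L) {h : Γ → ℝ} (hh : h ∈ Bl B L) (x : Γ) : |h x| ≤ L := by
  obtain ⟨g, hg, rfl⟩ := hh
  rw [Pi.smul_apply, smul_eq_mul, abs_mul, abs_of_nonneg hL]
  calc L * |g x| ≤ L * 1 := mul_le_mul_of_nonneg_left (hB.bdd g hg x) hL
    _ = L := mul_one L

theorem ball_smul {h : Γ → ℝ} (hh : h ∈ B) {s : ℝ} (hs : |s| ≤ 1) : s • h ∈ B := by
  have := hB.comb h hh 0 hB.zero s 0 (by simpa using hs)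
  simpa using this

theorem Bl_smul {L : ℝ} {h : Γ → ℝ} (hh : h ∈ Bl B L) (c : ℝ) : c • h ∈ Bl B (|c| * L) := by
  obtain ⟨g, hg, rfl⟩ := hh
  rcases le_or_gt 0 c with hc | hc
  · refine ⟨g, hg, ?_⟩
    rw [abs_of_nonneg hc, smul_smul]
  · refine ⟨(-1 : ℝ) • g, ball_smul hB hg (by simp), ?_⟩
    rw [abs_of_neg hc, smul_smul, smul_smul]
    congr 1
    ring

theorem Bl_mono {L L' : ℝ} (hL : 0 ≤ L) (hLL' : L ≤ L') {h : Γ → ℝ} (hh : h ∈ Bl B L) : h ∈ Bl B L' := by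
  obtain ⟨g, hg, rfl⟩ := hh
  rcases (hL.trans hLL').eq_or_lt with h0 | h0
  · have h1 : L = 0 := le_antisymm (hLL'.trans h0.symm.le) hL
    exact ⟨g, hg, by rw [← h0, h1]⟩
  · refine ⟨(L / L') • g, ball_smul hB hg ?_, ?_⟩
    · rw [abs_of_nonneg (div_nonneg hL h0.le)]
      exact (div_le_one h0).2 hLL'
    · rw [smul_smul, mul_div_cancel₀ _ h0.ne']

theorem Bl_add {L L' : ℝ} (hL : 0 ≤ L) (hL' : 0 ≤ L') {h g : Γ → ℝ} (hh : h ∈ Bl B L) (hg : g ∈ Bl B L') :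
    h + g ∈ Bl B (L + L') := by
  obtain ⟨u, hu, rfl⟩ := hh
  obtain ⟨v, hv, rfl⟩ := hg
  rcases (add_nonneg hL hL').eq_or_lt with h0 | h0
  · have h1 : L = 0 := by linarith
    have h2 : L' = 0 := by linarith
    exact ⟨0, hB.zero, by rw [h1, h2]; simp⟩
  · refine ⟨(L / (L + L')) • u + (L' / (L + L')) • v, hB.comb u hu v hv _ _ ?_, ?_⟩
    · rw [abs_of_nonneg (div_nonneg hL h0.le), abs_of_nonneg (div_nonneg hL' h0.le), ← add_div, div_self h0.ne']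
    · rw [smul_add, smul_smul, smul_smul, mul_div_cancel₀ _ h0.ne', mul_div_cancel₀ _ h0.ne']

theorem Bl_sub {L L' : ℝ} (hL : 0 ≤ L) (hL' : 0 ≤ L') {h g : Γ → ℝ} (hh : h ∈ Bl B L) (hg : g ∈ Bl B L') :
    h - g ∈ Bl B (L + L') := by
  have h1 := Bl_smul hB hg (-1)
  rw [abs_neg, abs_one, one_mul] at h1
  have h2 := Bl_add hB hL hL' hh h1
  rwa [neg_one_smul, ← sub_eq_add_neg] at h2

theorem Bl_zero {L : ℝ} (hL : 0 ≤ L) : (0 : Γ → ℝ) ∈ Bl B L :=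
  ⟨0, hB.zero, by simp⟩

theorem Bl_one {h : Γ → ℝ} : h ∈ Bl B 1 ↔ h ∈ B := by
  constructor
  · rintro ⟨g, hg, rfl⟩
    simpa using hg
  · intro hh
    exact ⟨h, hh, by simp⟩

theorem Bl_sup {L : ℝ} (hL : 0 ≤ L) {f : ℕ → Γ → ℝ} (hf : ∀ n, f n ∈ Bl B L) :
    (fun x => ⨆ n, f n x) ∈ Bl B L := by
  choose g hg hfg using hf
  refine ⟨fun x => ⨆ n, g n x, hB.sup g hg, ?_⟩
  funext x
  rw [Pi.smul_apply, smul_eq_mul, Real.mul_iSup_of_nonneg hL]
  congr 1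
  funext n
  rw [hfg n]
  rfl

theorem Bl_max {L : ℝ} (hL : 0 ≤ L) {f g : Γ → ℝ} (hf : f ∈ Bl B L) (hg : g ∈ Bl B L) :
    (fun x => max (f x) (g x)) ∈ Bl B L := by
  have h1 := Bl_sup hB hL (f := fun n => if n = 0 then f else g) (fun n => by
    by_cases hn : n = 0
    · simpa [hn] using hf
    · simpa [hn] using hg)
  convert h1 using 2 with x
  apply le_antisymm
  · refine max_le ?_ ?_
    · have hb : BddAbove (Set.range fun n : ℕ => (if n = 0 then f else g) x) := by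
        refine ⟨L, ?_⟩
        rintro _ ⟨n, rfl⟩
        by_cases hn : n = 0
        · simp only [hn, if_true]
          exact (abs_le.1 (Bl_bdd hB hL hf x)).2
        · simp only [hn, if_false]
          exact (abs_le.1 (Bl_bdd hB hL hg x)).2
      exact le_ciSup hb 0
    · have hb : BddAbove (Set.range fun n : ℕ => (if n = 0 then f else g) x) := by
        refine ⟨L, ?_⟩
        rintro _ ⟨n, rfl⟩
        by_cases hn : n = 0
        · simp only [hn, if_true]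
          exact (abs_le.1 (Bl_bdd hB hL hf x)).2
        · simp only [hn, if_false]
          exact (abs_le.1 (Bl_bdd hB hL hg x)).2
      exact le_ciSup hb 1
  · refine ciSup_le fun n => ?_
    by_cases hn : n = 0
    · simp only [hn, if_true]
      exact le_max_left _ _
    · simp only [hn, if_false]
      exact le_max_right _ _

theorem Bl_pos {L : ℝ} (hL : 0 ≤ L) {f : Γ → ℝ} (hf : f ∈ Bl B L) :
    (fun x => max (f x) 0) ∈ Bl B L :=
  Bl_max hB hL hf (Bl_zero hB hL)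

end basic

section lin

variable {B : Set (Γ → ℝ)} (hB : IsBall B)

theorem Wd_of {L : ℝ} (hL : 0 ≤ L) {h : Γ → ℝ} (hh : h ∈ Bl B L) : Wd B h := ⟨L, hL, hh⟩

include hB

theorem Wd_ball {h : Γ → ℝ} (hh : h ∈ B) : Wd B h := ⟨1, zero_le_one, (Bl_one hB).2 hh⟩

theorem Wd_zero : Wd B (0 : Γ → ℝ) := Wd_ball hB hB.zero

theorem Wd_add {h g : Γ → ℝ} (hh : Wd B h) (hg : Wd B g) : Wd B (h + g) := by
  obtain ⟨L, hL, h1⟩ := hh
  obtain ⟨L', hL', h2⟩ := hg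
  exact ⟨L + L', add_nonneg hL hL', Bl_add hB hL hL' h1 h2⟩

theorem Wd_smul {h : Γ → ℝ} (hh : Wd B h) (c : ℝ) : Wd B (c • h) := by
  obtain ⟨L, hL, h1⟩ := hh
  exact ⟨|c| * L, mul_nonneg (abs_nonneg c) hL, Bl_smul hB h1 c⟩

theorem Wd_sub {h g : Γ → ℝ} (hh : Wd B h) (hg : Wd B g) : Wd B (h - g) := by
  obtain ⟨L, hL, h1⟩ := hh
  obtain ⟨L', hL', h2⟩ := hg
  exact ⟨L + L', add_nonneg hL hL', Bl_sub hB hL hL' h1 h2⟩

variable {φ : (Γ → ℝ) → ℝ} (hφ : IsLin B φ)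
include hφ

theorem lin_add {h g : Γ → ℝ} (hh : Wd B h) (hg : Wd B g) : φ (h + g) = φ h + φ g := by
  have := hφ h g hh hg 1 1
  simpa using this

theorem lin_smul {h : Γ → ℝ} (hh : Wd B h) (c : ℝ) : φ (c • h) = c * φ h := by
  have := hφ h 0 hh (Wd_zero hB) c 0
  simpa using this

theorem lin_zero : φ 0 = 0 := by
  have := hφ 0 0 (Wd_zero hB) (Wd_zero hB) 0 0
  simpa using this

theorem lin_sub {h g : Γ → ℝ} (hh : Wd B h) (hg : Wd B g) : φ (h - g) = φ h - φ g := by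
  have := hφ h g hh hg 1 (-1)
  simp only [one_smul, neg_smul, one_mul, neg_mul] at this
  rw [sub_eq_add_neg, this]
  ring

theorem lin_neg {h : Γ → ℝ} (hh : Wd B h) : φ (-h) = - φ h := by
  have := lin_smul hB hφ hh (-1)
  simpa using this

end lin

end Pool.Agent.MP312e4a
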