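import Pool.Agent.Lib.MP_312e4a.Glide

/-!
# The core theorem
-/

namespace Pool.Agent.MP312e4a

open Filter Topology

variable {Γ : Type*}

/-- running maxima -/
noncomputable def rmax (h : ℕ → Γ → ℝ) : ℕ → Γ → ℝ
  | 0 => 0
  | k + 1 => fun x => max (rmax h k x) (h k x)

theorem rmax_mem {B : Set (Γ → ℝ)} (hB : IsBall B) {h : ℕ → Γ → ℝ} (hh : ∀ k, h k ∈ B) (k : ℕ) :
    rmax h k ∈ Bl B 1 := by
  induction k with
  | zero => exact Bl_zero hB zero_le_one
  | succ k ih => exact Bl_max hB zero_le_one ih ((Bl_one hB).2 (hh k))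

theorem rmax_nonneg {h : ℕ → Γ → ℝ} (k : ℕ) (x : Γ) : 0 ≤ rmax h k x := by
  induction k with
  | zero => exact le_rfl
  | succ k ih => exact ih.trans (le_max_left _ _)

theorem rmax_le_sum {h : ℕ → Γ → ℝ} (h0 : ∀ k x, 0 ≤ h k x) (k : ℕ) (x : Γ) :
    rmax h k x ≤ ∑ i ∈ Finset.range k, h i x := by
  induction k with
  | zero => simp [rmax]
  | succ k ih =>
    rw [Finset.sum_range_succ]
    refine max_le ?_ ?_
    · have := h0 k x
      linarith
    · have : 0 ≤ ∑ i ∈ Finset.range k, h i x := Finset.sum_nonneg fun i _ => h0 i x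
      linarith

/-- almost disjoint functions -/
noncomputable def adj (h : ℕ → Γ → ℝ) (k : ℕ) (x : Γ) : ℝ := max (h k x - 2 * rmax h k x) 0

theorem adj_nonneg {h : ℕ → Γ → ℝ} (k : ℕ) (x : Γ) : 0 ≤ adj h k x := le_max_right _ _

theorem adj_le {h : ℕ → Γ → ℝ} (h0 : ∀ k x, 0 ≤ h k x) (k : ℕ) (x : Γ) : adj h k x ≤ h k x := by
  refine max_le ?_ (h0 k x)
  have := rmax_nonneg (h := h) k x
  linarith

theorem adj_mem {B : Set (Γ → ℝ)} (hB : IsBall B) {h : ℕ → Γ → ℝ} (hh : ∀ k, h k ∈ B) (k : ℕ) :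
    adj h k ∈ Bl B 3 := by
  have h1 := Bl_smul hB (rmax_mem hB hh k) 2
  rw [abs_of_nonneg (by norm_num), mul_one] at h1
  have h2 := Bl_sub hB zero_le_one (by norm_num) ((Bl_one hB).2 (hh k)) h1
  norm_num at h2
  exact Bl_pos hB (by norm_num) h2

theorem sum_adj_le {h : ℕ → Γ → ℝ} (N : ℕ) (x : Γ) :
    ∑ k ∈ Finset.range N, adj h k x ≤ 2 * rmax h N x := by
  induction N with
  | zero => simp [rmax]
  | succ N ih =>
    rw [Finset.sum_range_succ]
    have h1 : rmax h (N + 1) x = max (rmax h N x) (h N x) := rfl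
    have h2 := rmax_nonneg (h := h) N x
    rw [h1]
    rcases le_total (h N x - 2 * rmax h N x) 0 with h3 | h3
    · have h4 : adj h N x = 0 := max_eq_right h3
      rw [h4]
      have := le_max_left (rmax h N x) (h N x)
      linarith
    · have h4 : adj h N x = h N x - 2 * rmax h N x := max_eq_left h3
      rw [h4]
      have := le_max_right (rmax h N x) (h N x)
      linarith

theorem geom_le {δ : ℝ} (hδ : 0 < δ) (k : ℕ) :
    ∑ i ∈ Finset.range k, 2 * (δ / 100 * (1 / 2 : ℝ) ^ i) ≤ 4 * (δ / 100) := by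
  have h1 : ∀ k : ℕ, ∑ i ∈ Finset.range k, 2 * (δ / 100 * (1 / 2 : ℝ) ^ i)
      = 4 * (δ / 100) - 4 * (δ / 100) * (1 / 2) ^ k := by
    intro k
    induction k with
    | zero => simp
    | succ k ih =>
      rw [Finset.sum_range_succ, ih, pow_succ]
      ring
  rw [h1]
  have : 0 ≤ 4 * (δ / 100) * (1 / 2 : ℝ) ^ k := by positivity
  linarith

/-- the contradictory configuration -/
theorem glide {B : Set (Γ → ℝ)} (hB : IsBall B) {ψ ρ : ℕ → (Γ → ℝ) → ℝ} {M δ : ℝ} (hδ : 0 < δ)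
    (hlin : ∀ k, IsLin B (ψ k)) (hnull : ∀ h ∈ B, Tendsto (fun k => ψ k h) atTop (𝓝 0))
    (hρ : ∀ k, IsPos M (ρ k))
    (hdom : ∀ k, ∀ L, 0 ≤ L → ∀ g ∈ Bl B L, |ψ k g| ≤ ρ k (fun x => |g x|) + δ / 100 * L)
    {h : ℕ → Γ → ℝ} (hh : ∀ k, h k ∈ B ∧ (∀ x, 0 ≤ h k x) ∧ δ ≤ |ψ k (h k)|)
    (hsmall : ∀ i k, i < k → ρ k (h i) ≤ 2 * (δ / 100 * (1 / 2) ^ i)) : False := by
  classical
  have hhB : ∀ k, h k ∈ B := fun k => (hh k).1
  have hh0 : ∀ k x, 0 ≤ h k x := fun k => (hh k).2.1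
  have hhb : ∀ k, BdF (h k) := fun k => ball_bdF hB (hhB k)
  -- the sums of the earlier functions
  have hsum : ∀ k (u : Γ → ℝ), BdF u → (∀ x, u x ≤ ∑ i ∈ Finset.range k, h i x) → ρ k u ≤ 4 * (δ / 100) := by
    intro k u hu hle
    have h1 := (hρ k).mono hu (BdF.sum (Finset.range k) fun i _ => hhb i) (fun x => by
      rw [Finset.sum_apply]
      exact hle x)
    rw [(hρ k).sum _ fun i _ => hhb i] at h1
    refine h1.trans (le_trans ?_ (geom_le hδ k))
    exact Finset.sum_le_sum fun i hi => hsmall i k (Finset.mem_range.1 hi)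
  set f := adj h with hf
  have hf0 : ∀ n x, 0 ≤ f n x := fun n x => adj_nonneg n x
  have hf3 : ∀ n, f n ∈ Bl B 3 := fun n => adj_mem hB hhB n
  have hfK : ∀ n x, f n x ≤ 3 := fun n x => (_root_.abs_le.1 (Bl_bdd hB (by norm_num) (hf3 n) x)).2
  have hfsum : ∀ N x, ∑ i ∈ Finset.range N, f i x ≤ 2 := fun N x => by
    have h1 := sum_adj_le (h := h) N x
    have h2 := (_root_.abs_le.1 (Bl_bdd hB zero_le_one (rmax_mem hB hhB N) x)).2
    linarith
  -- `ψ k (f k)` is large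
  have hfk : ∀ k, 88 / 100 * δ ≤ |ψ k (f k)| := by
    intro k
    have h1 : h k - f k ∈ Bl B 4 := by
      have := Bl_sub hB zero_le_one (by norm_num) ((Bl_one hB).2 (hhB k)) (hf3 k)
      norm_num at this
      exact this
    have h2 := hdom k 4 (by norm_num) _ h1
    have h3 : ψ k (h k - f k) = ψ k (h k) - ψ k (f k) :=
      lin_sub hB (hlin k) (Wd_ball hB (hhB k)) (Wd_of (by norm_num) (hf3 k))
    have h4 : ρ k (fun x => |(h k - f k) x|) ≤ 8 * (δ / 100) := by
      have hb : BdF (fun x => |(h k - f k) x|) := BdF.abs ⟨4, Bl_bdd hB (by norm_num) h1⟩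
      have h5 : ρ k ((1 / 2 : ℝ) • fun x => |(h k - f k) x|) ≤ 4 * (δ / 100) := by
        refine hsum k _ (hb.smul _) fun x => ?_
        refine le_trans ?_ (rmax_le_sum hh0 k x)
        have h6 : |(h k - f k) x| ≤ 2 * rmax h k x := by
          rw [Pi.sub_apply, abs_le]
          have e1 := adj_le hh0 k x
          have e2 : h k x - 2 * rmax h k x ≤ adj h k x := le_max_left _ _
          have e3 := rmax_nonneg (h := h) k x
          rw [hf]
          constructor <;> linarith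
        rw [Pi.smul_apply, smul_eq_mul]
        linarith
      rw [(hρ k).smul _ _ hb] at h5
      linarith
    have h5 := (hh k).2.2
    have h6 : |ψ k (h k)| ≤ |ψ k (h k) - ψ k (f k)| + |ψ k (f k)| := by
      have := abs_add_le (ψ k (h k) - ψ k (f k)) (ψ k (f k))
      rwa [sub_add_cancel] at this
    rw [h3] at h2
    linarith
  -- diagonal sequence
  have step : ∀ k (T : Set ℕ), T.Infinite → ∃ J ⊆ T ∩ Set.Ioi k, J.Infinite ∧
      ∀ T' ⊆ J, |ψ k (fun x => max (Fs f T' x - f k x) 0)| ≤ δ / 4 := fun k T hT =>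
    thin hB (hρ k) (hdom k) (by linarith) hf0 hf3 hfsum k hT
  let P : ℕ × Set ℕ → Prop := fun a => a.2.Infinite ∧ a.2 ⊆ Set.Ioi a.1 ∧
    ∀ T' ⊆ a.2, |ψ a.1 (fun x => max (Fs f T' x - f a.1 x) 0)| ≤ δ / 4
  have hnext : ∀ a : {a // P a}, ∃ b : {b // P b}, b.1.1 ∈ a.1.2 ∧ b.1.2 ⊆ a.1.2 := by
    rintro ⟨⟨i, J⟩, hJ1, hJ2, hJ3⟩
    obtain ⟨i', hi'⟩ := hJ1.nonempty
    obtain ⟨J', h1, h2, h3⟩ := step i' J hJ1
    exact ⟨⟨(i', J'), h2, fun n hn => (h1 hn).2, h3⟩, hi', fun n hn => (h1 hn).1⟩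
  choose nxt hn1 hn2 using hnext
  obtain ⟨a₀⟩ : Nonempty {a // P a} := by
    obtain ⟨J, h1, h2, h3⟩ := step 0 Set.univ Set.infinite_univ
    exact ⟨⟨(0, J), h2, fun n hn => (h1 hn).2, h3⟩⟩
  let a : ℕ → {a // P a} := fun m => nxt^[m] a₀
  have ha : ∀ m, a (m + 1) = nxt (a m) := fun m => Function.iterate_succ_apply' nxt m a₀
  have hmem : ∀ m, (a (m + 1)).1.1 ∈ (a m).1.2 := fun m => by
    rw [ha]
    exact hn1 _
  have hanti : Antitone fun m => (a m).1.2 := antitone_nat_of_succ_le fun m => by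
    change (a (m + 1)).1.2 ⊆ (a m).1.2
    rw [ha]
    exact hn2 _
  have hmem' : ∀ m l, m < l → (a l).1.1 ∈ (a m).1.2 := by
    intro m l hml
    obtain ⟨j, rfl⟩ : ∃ j, l = j + 1 := ⟨l - 1, by omega⟩
    exact hanti (Nat.lt_succ_iff.1 hml) (hmem j)
  have hmono : StrictMono fun m => (a m).1.1 := by
    intro m l hml
    exact (a m).2.2.1 (hmem' m l hml)
  set S : Set ℕ := Set.range fun m => (a m).1.1 with hS
  have hFS := Fs_mem hB (show (0 : ℝ) ≤ 3 by norm_num) hf3 S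
  have hbig : ∀ m, δ / 2 ≤ |ψ (a m).1.1 (Fs f S)| := by
    intro m
    set k := (a m).1.1 with hk
    have hkS : k ∈ S := ⟨m, rfl⟩
    set F1 := Fs f (S ∩ Set.Ioi k) with hF1
    set F2 := Fs f (S ∩ Set.Iio k) with hF2
    have h1 : S ∩ Set.Ioi k ⊆ (a m).1.2 := by
      rintro _ ⟨⟨l, rfl⟩, hl⟩
      exact hmem' m l (hmono.lt_iff_lt.1 hl)
    have h2 := (a m).2.2.2 _ h1
    have hF1m : F1 ∈ Bl B 3 := Fs_mem hB (by norm_num) hf3 _
    have hF2m : F2 ∈ Bl B 3 := Fs_mem hB (by norm_num) hf3 _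
    let u : Γ → ℝ := fun x => max (F1 x - f k x) 0
    let v : Γ → ℝ := fun x => max (F2 x - max (f k x) (F1 x)) 0
    have hu : u ∈ Bl B 6 := by
      have h3 := Bl_pos hB (by norm_num) (Bl_sub hB (by norm_num) (by norm_num) hF1m (hf3 k))
      norm_num at h3
      exact h3
    have hv : v ∈ Bl B 6 := by
      have h3 := Bl_pos hB (by norm_num) (Bl_sub hB (by norm_num) (by norm_num) hF2m
        (Bl_max hB (by norm_num) (hf3 k) hF1m))
      norm_num at h3
      exact h3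
    have hdec : Fs f S = f k + u + v := by
      funext x
      rw [Fs_split hf0 hfK S hkS x, Pi.add_apply, Pi.add_apply]
      change max (max (f k x) (F1 x)) (F2 x) = f k x + max (F1 x - f k x) 0 + max (F2 x - max (f k x) (F1 x)) 0
      have e1 : ∀ a b : ℝ, a + max (b - a) 0 = max a b := by
        intro a b
        rcases le_total a b with h | h
        · rw [max_eq_left (sub_nonneg.2 h), max_eq_right h]
          ring
        · rw [max_eq_right (sub_nonpos.2 h), max_eq_left h]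
          ring
      rw [e1, e1]
    have hWf : Wd B (f k) := Wd_of (by norm_num) (hf3 k)
    have hWu : Wd B u := Wd_of (by norm_num) hu
    have hWv : Wd B v := Wd_of (by norm_num) hv
    have h3 : ψ k (Fs f S) = ψ k (f k) + ψ k u + ψ k v := by
      rw [hdec, lin_add hB (hlin k) (Wd_add hB hWf hWu) hWv, lin_add hB (hlin k) hWf hWu]
    have h4 : |ψ k v| ≤ 10 * (δ / 100) := by
      have h5 := hdom k 6 (by norm_num) v hv
      have h6 : ρ k (fun x => |v x|) ≤ 4 * (δ / 100) := by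
        refine hsum k _ (BdF.abs ⟨6, Bl_bdd hB (by norm_num) hv⟩) fun x => ?_
        have h7 : 0 ≤ ∑ i ∈ Finset.range k, h i x := Finset.sum_nonneg fun i _ => hh0 i x
        have h8 : F2 x ≤ ∑ i ∈ Finset.range k, h i x := by
          refine Fs_le h7 fun n hn => ?_
          refine (adj_le hh0 n x).trans ?_
          exact Finset.single_le_sum (f := fun i => h i x) (fun i _ => hh0 i x) (Finset.mem_range.2 hn.2)
        have h9 : 0 ≤ max (f k x) (F1 x) := (hf0 k x).trans (le_max_left _ _)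
        have h10 : 0 ≤ v x := le_max_right _ _
        rw [abs_of_nonneg h10]
        refine max_le ?_ h7
        linarith
      linarith
    have h5 : |ψ k u| ≤ δ / 4 := h2
    have h6 := hfk k
    have h7 : |ψ k (f k)| ≤ |ψ k (Fs f S)| + |ψ k u| + |ψ k v| := by
      have e1 : ψ k (f k) = ψ k (Fs f S) - ψ k u - ψ k v := by rw [h3]; ring
      rw [e1]
      have e2 := abs_sub (ψ k (Fs f S) - ψ k u) (ψ k v)
      have e3 := abs_sub (ψ k (Fs f S)) (ψ k u)
      linarith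
    linarith
  -- contradiction
  obtain ⟨g, hg, hgF⟩ := hFS
  have h1 : Tendsto (fun k => ψ k (Fs f S)) atTop (𝓝 0) := by
    have h2 := (hnull g hg).const_mul 3
    rw [mul_zero] at h2
    refine h2.congr fun k => ?_
    rw [hgF, lin_smul hB (hlin k) (Wd_ball hB hg)]
  have h2 := (h1.comp hmono.tendsto_atTop).abs
  rw [abs_zero] at h2
  have h3 : δ / 2 ≤ 0 := ge_of_tendsto' h2 fun m => hbig m
  linarith

/-- **Core theorem.** -/
theorem core [Nonempty Γ] {B : Set (Γ → ℝ)} (hB : IsBall B) {φ : ℕ → (Γ → ℝ) → ℝ}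
    (hlin : ∀ n, IsLin B (φ n)) (hnull : ∀ h ∈ B, Tendsto (fun n => φ n h) atTop (𝓝 0))
    (ha : ∀ ε : ℝ, 0 < ε → ∃ M : ℝ, ∀ n, ∀ h ∈ B, ∀ t : ℝ, 0 ≤ t → (∀ x, |h x| ≤ t) → |φ n h| ≤ ε + M * t)
    {ε : ℝ} (hε : 0 < ε) :
    ∃ t : Finset ℕ, ∃ c : ℕ → ℝ, (∀ i ∈ t, 0 ≤ c i) ∧ ∑ i ∈ t, c i = 1 ∧
      ∀ g ∈ B, |∑ i ∈ t, c i * φ i g| ≤ ε := by
  classical
  by_contra hcon
  set δ : ℝ := ε / 6 with hδ
  have hδ0 : 0 < δ := by positivity
  have hC : ∀ k : ℕ, ∃ g ∈ B, ∀ i ≤ k, 5 * δ ≤ φ i g := by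
    intro k
    rcases minimax_seq hB φ hlin (show 0 ≤ 5 * δ by positivity) (show 5 * δ < ε by linarith) k with h | h
    · exact absurd h hcon
    · exact h
  obtain ⟨M, hM⟩ := ha (δ / 100) (by positivity)
  -- homogeneous form
  have hM' : ∀ n, ∀ L, 0 ≤ L → ∀ h ∈ Bl B L, ∀ t, 0 ≤ t → (∀ x, |h x| ≤ t) →
      φ n h ≤ δ / 100 * L + M * t := by
    intro n L hL h hh t ht hle
    obtain ⟨g, hg, rfl⟩ := hh
    rcases hL.eq_or_lt with h0 | h0
    · -- `L = 0`
      rw [← h0, zero_smul, lin_zero hB (hlin n), mul_zero, zero_add]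
      -- `M * t ≥ 0` is not automatic: use the hypothesis for the zero function
      by_contra hneg
      push Not at hneg
      have h1 := hM n 0 hB.zero
      rw [lin_zero hB (hlin n), abs_zero] at h1
      have ht0 : 0 < t := by
        rcases ht.eq_or_lt with h2 | h2
        · rw [← h2, mul_zero] at hneg
          exact absurd hneg (lt_irrefl _)
        · exact h2
      have hM0 : M < 0 := by
        by_contra hM0
        push Not at hM0
        have := mul_nonneg hM0 ht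
        linarith
      have h3 := h1 ((δ / 100 + 1) / (-M)) (div_nonneg (by positivity) (by linarith)) (fun x => by
        rw [Pi.zero_apply, abs_zero]
        exact div_nonneg (by positivity) (by linarith))
      have h4 : M * ((δ / 100 + 1) / (-M)) = -(δ / 100 + 1) := by
        have : M ≠ 0 := hM0.ne
        field_simp
      rw [h4] at h3
      linarith
    · have h1 := hM n g hg (t / L) (div_nonneg ht hL) (fun x => by
        rw [le_div_iff₀ h0]
        have := hle x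
        rw [Pi.smul_apply, smul_eq_mul, abs_mul, abs_of_nonneg hL] at this
        linarith)
      rw [lin_smul hB (hlin n) (Wd_ball hB hg)]
      have h2 : φ n g ≤ δ / 100 + M * (t / L) := (le_abs_self _).trans h1
      calc L * φ n g ≤ L * (δ / 100 + M * (t / L)) := mul_le_mul_of_nonneg_left h2 hL
        _ = δ / 100 * L + M * t := by
          field_simp
  have hex : ∀ n, ∃ π : (Γ → ℝ) → ℝ, IsPos M π ∧
      ∀ L, 0 ≤ L → ∀ h ∈ Bl B L, |φ n h| ≤ π (fun x => |h x|) + δ / 100 * L := fun n =>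
    exists_pos hB (hlin n) (hM' n)
  choose π hπ hdom using hex
  obtain ⟨n, h, s, hn, hh, hs, hsm⟩ := selection hB φ hlin hnull π hπ hδ0 hC
  refine glide hB (ψ := fun k => φ (n k)) (ρ := fun k => π (n k)) hδ0 (fun k => hlin _)
    (fun g hg => (hnull g hg).comp hn.tendsto_atTop) (fun k => hπ _) (fun k => hdom _) (h := h) hh ?_
  intro i k hik
  exact (hsm i k hik).trans (mul_le_mul_of_nonneg_left (hs i).2 (by norm_num))

end Pool.Agent.MP312e4a
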