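import Pool.Agent.Lib.MP_312e4a.Sel

/-!
# The gliding hump: almost disjoint functions and suprema
-/

namespace Pool.Agent.MP312e4a

open Filter Topology

variable {Γ : Type*}

/-- supremum of the functions with index in `T` (and zero) -/
noncomputable def Fs (f : ℕ → Γ → ℝ) (T : Set ℕ) (x : Γ) : ℝ := ⨆ n, T.indicator (fun n => f n x) n

section Fs

variable {f : ℕ → Γ → ℝ} {K : ℝ} (h0 : ∀ n x, 0 ≤ f n x) (hK : ∀ n x, f n x ≤ K)
include h0 hK

theorem Fs_bdd (T : Set ℕ) (x : Γ) : BddAbove (Set.range fun n => T.indicator (fun n => f n x) n) := by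
  refine ⟨K, ?_⟩
  rintro _ ⟨n, rfl⟩
  by_cases hn : n ∈ T
  · simp only [Set.indicator_of_mem hn]
    exact hK n x
  · simp only [Set.indicator_of_notMem hn]
    exact (h0 n x).trans (hK n x)

theorem le_Fs {T : Set ℕ} {n : ℕ} (hn : n ∈ T) (x : Γ) : f n x ≤ Fs f T x := by
  have := le_ciSup (Fs_bdd h0 hK T x) n
  rwa [Set.indicator_of_mem hn] at this

theorem Fs_nonneg (T : Set ℕ) (x : Γ) : 0 ≤ Fs f T x := by
  refine le_trans ?_ (le_ciSup (Fs_bdd h0 hK T x) 0)
  exact Set.indicator_nonneg (fun n _ => h0 n x) 0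

omit h0 hK in
theorem Fs_le {T : Set ℕ} {x : Γ} {c : ℝ} (hc : 0 ≤ c) (h : ∀ n ∈ T, f n x ≤ c) : Fs f T x ≤ c := by
  refine ciSup_le fun n => ?_
  by_cases hn : n ∈ T
  · rw [Set.indicator_of_mem hn]
    exact h n hn
  · rw [Set.indicator_of_notMem hn]
    exact hc

theorem Fs_mono {T T' : Set ℕ} (h : T ⊆ T') (x : Γ) : Fs f T x ≤ Fs f T' x :=
  Fs_le (Fs_nonneg h0 hK T' x) fun _ hn => le_Fs h0 hK (h hn) x

theorem Fs_split (T : Set ℕ) {k : ℕ} (hk : k ∈ T) (x : Γ) :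
    Fs f T x = max (max (f k x) (Fs f (T ∩ Set.Ioi k) x)) (Fs f (T ∩ Set.Iio k) x) := by
  apply le_antisymm
  · refine Fs_le ?_ fun n hn => ?_
    · exact (h0 k x).trans ((le_max_left _ _).trans (le_max_left _ _))
    · rcases lt_trichotomy n k with h | h | h
      · exact (le_Fs h0 hK (T := T ∩ Set.Iio k) ⟨hn, h⟩ x).trans (le_max_right _ _)
      · subst h
        exact (le_max_left _ _).trans (le_max_left _ _)
      · exact ((le_Fs h0 hK (T := T ∩ Set.Ioi k) ⟨hn, h⟩ x).trans (le_max_right _ _)).trans (le_max_left _ _)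
  · exact max_le (max_le (le_Fs h0 hK hk x) (Fs_mono h0 hK Set.inter_subset_left x))
      (Fs_mono h0 hK Set.inter_subset_left x)

omit hK in
theorem sum_Fs_le {c : ℝ} (hsum : ∀ N x, ∑ i ∈ Finset.range N, f i x ≤ c) {T : ℕ → Set ℕ}
    (hd : ∀ i j n, n ∈ T i → n ∈ T j → i = j) (Q : ℕ) (x : Γ) :
    ∑ i ∈ Finset.range Q, Fs f (T i) x ≤ c := by
  classical
  have hs : Summable fun n => f n x :=
    summable_of_sum_range_le (fun n => h0 n x) (fun N => hsum N x)
  have hs' : ∀ i, Summable fun n => (T i).indicator (fun n => f n x) n := fun i => hs.indicator _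
  calc ∑ i ∈ Finset.range Q, Fs f (T i) x
      ≤ ∑ i ∈ Finset.range Q, ∑' n, (T i).indicator (fun n => f n x) n := by
        refine Finset.sum_le_sum fun i _ => ciSup_le fun n => ?_
        exact (hs' i).le_tsum n fun m _ => Set.indicator_nonneg (fun n _ => h0 n x) m
    _ = ∑' n, ∑ i ∈ Finset.range Q, (T i).indicator (fun n => f n x) n :=
        (Summable.tsum_finsetSum fun i _ => hs' i).symm
    _ ≤ ∑' n, f n x := by
        refine Summable.tsum_le_tsum (fun n => ?_) (summable_sum fun i _ => hs' i) hs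
        by_cases hex : ∃ i ∈ Finset.range Q, n ∈ T i
        · obtain ⟨i, hi, hn⟩ := hex
          rw [Finset.sum_eq_single i]
          · rw [Set.indicator_of_mem hn]
          · intro j _ hj
            exact Set.indicator_of_notMem (fun h => hj (hd j i n h hn)) _
          · intro h
            exact absurd hi h
        · push Not at hex
          rw [Finset.sum_eq_zero fun i hi => Set.indicator_of_notMem (hex i hi) _]
          exact h0 n x
    _ ≤ c := Real.tsum_le_of_sum_range_le (fun n => h0 n x) fun N => hsum N x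

end Fs

theorem Fs_mem {B : Set (Γ → ℝ)} (hB : IsBall B) {f : ℕ → Γ → ℝ} {L : ℝ} (hL : 0 ≤ L)
    (hf : ∀ n, f n ∈ Bl B L) (T : Set ℕ) : Fs f T ∈ Bl B L := by
  classical
  have h1 := Bl_sup hB hL (f := fun n => if n ∈ T then f n else 0) (fun n => by
    split_ifs
    · exact hf n
    · exact Bl_zero hB hL)
  convert h1 using 1
  funext x
  unfold Fs
  congr 1
  funext n
  by_cases hn : n ∈ T
  · rw [Set.indicator_of_mem hn, if_pos hn]
  · rw [Set.indicator_of_notMem hn, if_neg hn, Pi.zero_apply]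

/-- infinitely many disjoint infinite subsets -/
theorem exists_split {T : Set ℕ} (hT : T.Infinite) (k : ℕ) :
    ∃ J : ℕ → Set ℕ, (∀ i, J i ⊆ T ∩ Set.Ioi k) ∧ (∀ i, (J i).Infinite) ∧
      ∀ i j n, n ∈ J i → n ∈ J j → i = j := by
  have hT' : (T ∩ Set.Ioi k).Infinite := by
    have : T ∩ Set.Ioi k = T \ Set.Iic k := by
      ext n
      simp
    rw [this]
    exact hT.sdiff (Set.finite_Iic k)
  have hT'' : (Set.ofPred (· ∈ T ∩ Set.Ioi k)).Infinite := hT'
  let e : ℕ → ℕ := Nat.nth (· ∈ T ∩ Set.Ioi k)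
  have he1 : ∀ n, e n ∈ T ∩ Set.Ioi k := fun n => Nat.nth_mem_of_infinite hT'' n
  have he2 : Function.Injective e := (Nat.nth_strictMono hT'').injective
  refine ⟨fun i => Set.range fun j => e (Nat.pair i j), ?_, ?_, ?_⟩
  · rintro i _ ⟨j, rfl⟩
    exact he1 _
  · intro i
    refine Set.infinite_range_of_injective fun j j' h => ?_
    have h1 := he2 h
    exact (Nat.pair_eq_pair.1 h1).2
  · rintro i j _ ⟨a, rfl⟩ ⟨b, hb⟩
    exact (Nat.pair_eq_pair.1 (he2 hb)).1.symm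

/-- **Thinning.** -/
theorem thin {B : Set (Γ → ℝ)} (hB : IsBall B) {ψ ρ : (Γ → ℝ) → ℝ} {M ε κ : ℝ} (hρ : IsPos M ρ)
    (hdom : ∀ L, 0 ≤ L → ∀ g ∈ Bl B L, |ψ g| ≤ ρ (fun x => |g x|) + ε * L) (hκ : 6 * ε < κ)
    {f : ℕ → Γ → ℝ} (h0 : ∀ n x, 0 ≤ f n x) (hf : ∀ n, f n ∈ Bl B 3)
    (hsum : ∀ N x, ∑ i ∈ Finset.range N, f i x ≤ 2) (k : ℕ) {T : Set ℕ} (hT : T.Infinite) :
    ∃ J ⊆ T ∩ Set.Ioi k, J.Infinite ∧
      ∀ T' ⊆ J, |ψ (fun x => max (Fs f T' x - f k x) 0)| ≤ κ := by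
  by_contra hcon
  push Not at hcon
  obtain ⟨J, hJ1, hJ2, hJ3⟩ := exists_split hT k
  have h1 : ∀ i, ∃ T' ⊆ J i, κ < |ψ (fun x => max (Fs f T' x - f k x) 0)| :=
    fun i => hcon (J i) (hJ1 i) (hJ2 i)
  choose T' hT' hψ using h1
  have hfK : ∀ n x, f n x ≤ 3 := fun n x => (_root_.abs_le.1 (Bl_bdd hB (by norm_num) (hf n) x)).2
  let u : ℕ → Γ → ℝ := fun i x => max (Fs f (T' i) x - f k x) 0
  have hu0 : ∀ i x, 0 ≤ u i x := fun i x => le_max_right _ _
  have hu6 : ∀ i, u i ∈ Bl B 6 := fun i => by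
    have h2 := Bl_sub hB (by norm_num) (by norm_num) (Fs_mem hB (by norm_num) hf (T' i)) (hf k)
    have h3 := Bl_pos hB (by norm_num) h2
    norm_num at h3
    exact h3
  have hub : ∀ i, BdF (u i) := fun i => ⟨6, Bl_bdd hB (by norm_num) (hu6 i)⟩
  have hule : ∀ i x, u i x ≤ Fs f (T' i) x := fun i x => by
    refine max_le ?_ (Fs_nonneg h0 hfK _ x)
    have := h0 k x
    linarith
  have hρu : ∀ i, κ - 6 * ε ≤ ρ (u i) := fun i => by
    have h2 := hdom 6 (by norm_num) (u i) (hu6 i)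
    have h3 : (fun x => |u i x|) = u i := by
      funext x
      exact abs_of_nonneg (hu0 i x)
    rw [h3] at h2
    have h4 := hψ i
    change κ < |ψ (u i)| at h4
    linarith
  obtain ⟨Q, hQ⟩ := exists_nat_gt (2 * M / (κ - 6 * ε))
  have hpos : 0 < κ - 6 * ε := by linarith
  rw [div_lt_iff₀ hpos] at hQ
  have h5 : ρ (∑ i ∈ Finset.range Q, u i) ≤ 2 * M := by
    refine hρ.le_of_le (BdF.sum _ fun i _ => hub i) fun x => ?_
    rw [Finset.sum_apply]
    refine (Finset.sum_le_sum fun i _ => hule i x).trans ?_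
    exact sum_Fs_le h0 hsum (fun i j n hi hj => hJ3 i j n (hT' i hi) (hT' j hj)) Q x
  rw [hρ.sum _ fun i _ => hub i] at h5
  have h6 : (Q : ℝ) * (κ - 6 * ε) ≤ ∑ i ∈ Finset.range Q, ρ (u i) := by
    have := Finset.card_nsmul_le_sum (Finset.range Q) (fun i => ρ (u i)) (κ - 6 * ε) fun i _ => hρu i
    simpa [nsmul_eq_mul] using this
  linarith

end Pool.Agent.MP312e4a
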