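import Pool.Agent.Lib.MP_312e4a.Ball

/-!
# Sums over scales
-/

namespace Pool.Agent.MP312e4a

open Filter Topology

/-- the two sided geometric weight -/
noncomputable def sc (p q : ℝ) (i : ℤ) : ℝ := if i < 0 then q ^ i else p ^ (-i)

section

variable {p q : ℝ}

theorem sc_nonneg (hp : 1 < p) (hq : 1 < q) (i : ℤ) : 0 ≤ sc p q i := by
  unfold sc
  split_ifs
  · exact zpow_nonneg (by linarith) _
  · exact zpow_nonneg (by linarith) _

theorem sc_summable (hp : 1 < p) (hq : 1 < q) : Summable (sc p q) := by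
  apply Summable.of_nat_of_neg_add_one
  · have h : Summable fun n : ℕ => (p⁻¹) ^ n :=
      summable_geometric_of_lt_one (inv_nonneg.2 (by linarith)) (inv_lt_one_of_one_lt₀ hp)
    refine h.congr fun n => ?_
    unfold sc
    rw [if_neg (by omega), zpow_neg, zpow_natCast, inv_pow]
  · have h : Summable fun n : ℕ => (q⁻¹) ^ (n + 1) :=
      (summable_nat_add_iff 1).2
        (summable_geometric_of_lt_one (inv_nonneg.2 (by linarith)) (inv_lt_one_of_one_lt₀ hq))
    refine h.congr fun n => ?_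
    unfold sc
    rw [if_pos (by omega), zpow_neg, inv_pow]
    congr 1

/-- the pointwise estimate -/
theorem scale_term (hp : 1 < p) (hq : 1 < q) (hpq : p * q = 2) {d : ℝ} {J : ℤ}
    (h2 : d < 2 ^ (J + 1)) {t : ℝ} (ht : 0 ≤ t) (N : ℕ) (j : ℤ) :
    q ^ j * min (2 * t) (d * 2 ^ (-j)) ≤
      q ^ J * (2 * t * q ^ N + 2 * (p⁻¹) ^ N) * sc p q (j - (J + N)) := by
  have hp0 : 0 < p := by linarith
  have hq0 : 0 < q := by linarith
  have hJ : 0 < q ^ J := zpow_pos hq0 _
  have hqj : 0 < q ^ j := zpow_pos hq0 _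
  have hN1 : 0 ≤ 2 * t * q ^ N := by positivity
  have hN2 : 0 ≤ 2 * (p⁻¹) ^ N := by positivity
  by_cases h : j - (J + N) < 0
  · unfold sc
    rw [if_pos h]
    calc q ^ j * min (2 * t) (d * 2 ^ (-j)) ≤ q ^ j * (2 * t) :=
          mul_le_mul_of_nonneg_left (min_le_left _ _) hqj.le
      _ = q ^ J * (2 * t * q ^ N) * q ^ (j - (J + N)) := by
          have e : q ^ j = q ^ J * q ^ N * q ^ (j - (J + N)) := by
            rw [← zpow_natCast, ← zpow_add₀ hq0.ne', ← zpow_add₀ hq0.ne']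
            congr 1
            ring
          rw [e]
          ring
      _ ≤ q ^ J * (2 * t * q ^ N + 2 * (p⁻¹) ^ N) * q ^ (j - (J + N)) := by
          refine mul_le_mul_of_nonneg_right (mul_le_mul_of_nonneg_left ?_ hJ.le)
            (zpow_nonneg hq0.le _)
          linarith
  · unfold sc
    rw [if_neg h]
    have h2j : (0 : ℝ) < 2 ^ (-j) := zpow_pos (by norm_num) _
    calc q ^ j * min (2 * t) (d * 2 ^ (-j)) ≤ q ^ j * (d * 2 ^ (-j)) :=
          mul_le_mul_of_nonneg_left (min_le_right _ _) hqj.le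
      _ ≤ q ^ j * (2 ^ (J + 1) * 2 ^ (-j)) :=
          mul_le_mul_of_nonneg_left (mul_le_mul_of_nonneg_right h2.le h2j.le) hqj.le
      _ = q ^ J * (2 * (p⁻¹) ^ N) * p ^ (-(j - (J + N))) := by
          have e2 : (2 : ℝ) ^ (J + 1) * 2 ^ (-j) = 2 * (2 : ℝ) ^ (J - j) := by
            rw [← zpow_add₀ (by norm_num : (2 : ℝ) ≠ 0), ← zpow_one_add₀ (by norm_num : (2 : ℝ) ≠ 0)]
            congr 1
            ring
          have e3 : (2 : ℝ) ^ (J - j) = p ^ (J - j) * q ^ (J - j) := by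
            rw [← hpq, mul_zpow]
          have e4 : q ^ j * q ^ (J - j) = q ^ J := by
            rw [← zpow_add₀ hq0.ne']
            congr 1
            ring
          have e5 : (p⁻¹) ^ N * p ^ (-(j - (J + N))) = p ^ (J - j) := by
            rw [inv_pow, ← zpow_natCast, ← zpow_neg, ← zpow_add₀ hp0.ne']
            congr 1
            ring
          rw [e2, e3]
          calc q ^ j * (2 * (p ^ (J - j) * q ^ (J - j))) = (q ^ j * q ^ (J - j)) * 2 * p ^ (J - j) := by ring
            _ = q ^ J * 2 * ((p⁻¹) ^ N * p ^ (-(j - (J + N)))) := by rw [e4, e5]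
            _ = q ^ J * (2 * (p⁻¹) ^ N) * p ^ (-(j - (J + N))) := by ring
      _ ≤ q ^ J * (2 * t * q ^ N + 2 * (p⁻¹) ^ N) * p ^ (-(j - (J + N))) := by
          refine mul_le_mul_of_nonneg_right (mul_le_mul_of_nonneg_left ?_ hJ.le)
            (zpow_nonneg hp0.le _)
          linarith

/-- **Scale sums.** -/
theorem scale_sum (hp : 1 < p) (hq : 1 < q) (hpq : p * q = 2) {α : ℝ} (hα : 0 < α)
    (hqα : q = (2 : ℝ) ^ α) {d : ℝ} (hd : 0 ≤ d) {t : ℝ} (ht : 0 ≤ t) {u : ℤ → ℝ}
    (hu : ∀ j, |u j| ≤ min (2 * t) (d * 2 ^ (-j))) :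
    Summable (fun j => q ^ j * u j) ∧
      ∀ N : ℕ, |∑' j, q ^ j * u j| ≤ (∑' i, sc p q i) * (2 * t * q ^ N + 2 * (p⁻¹) ^ N) * d ^ α := by
  have hq0 : 0 < q := by linarith
  have hp0 : 0 < p := by linarith
  have hS : 0 ≤ ∑' i, sc p q i := tsum_nonneg fun i => sc_nonneg hp hq i
  rcases hd.eq_or_lt with h0 | h0
  · have hz : ∀ j, u j = 0 := fun j => by
      have := hu j
      rw [← h0, zero_mul, min_eq_right (by linarith)] at this
      exact abs_eq_zero.1 (le_antisymm this (abs_nonneg _))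
    have hz' : (fun j => q ^ j * u j) = fun _ => 0 := by
      funext j
      rw [hz, mul_zero]
    rw [hz']
    refine ⟨summable_zero, fun N => ?_⟩
    rw [tsum_zero, abs_zero, ← h0, Real.zero_rpow hα.ne', mul_zero]
  · obtain ⟨J, hJ1, hJ2⟩ := exists_mem_Ico_zpow h0 (by norm_num : (1 : ℝ) < 2)
    have hJα : q ^ J ≤ d ^ α := by
      have e : q ^ J = ((2 : ℝ) ^ J) ^ α := by
        rw [hqα, ← Real.rpow_intCast, ← Real.rpow_intCast, ← Real.rpow_mul (by norm_num),
          ← Real.rpow_mul (by norm_num), mul_comm]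
      rw [e]
      exact Real.rpow_le_rpow (zpow_nonneg (by norm_num) _) hJ1 hα.le
    have key : ∀ N : ℕ, ∀ j, |q ^ j * u j| ≤
        q ^ J * (2 * t * q ^ N + 2 * (p⁻¹) ^ N) * sc p q (j - (J + N)) := fun N j => by
      rw [abs_mul, abs_of_pos (zpow_pos hq0 j)]
      exact (mul_le_mul_of_nonneg_left (hu j) (zpow_nonneg hq0.le j)).trans
        (scale_term hp hq hpq hJ2 ht N j)
    have hsum : ∀ m : ℤ, Summable fun j => sc p q (j - m) := fun m => by
      have h := (Equiv.subRight m).summable_iff (f := sc p q)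
      exact h.2 (sc_summable hp hq)
    have htsum : ∀ m : ℤ, ∑' j, sc p q (j - m) = ∑' i, sc p q i := fun m => by
      have h := (Equiv.subRight m).tsum_eq (sc p q)
      exact h
    have hab : ∀ N : ℕ, Summable fun j => |q ^ j * u j| := fun N =>
      Summable.of_nonneg_of_le (fun j => abs_nonneg _) (key N) ((hsum _).mul_left _)
    refine ⟨(hab 0).of_abs, fun N => ?_⟩
    calc |∑' j, q ^ j * u j| ≤ ∑' j, |q ^ j * u j| := by
          have := norm_tsum_le_tsum_norm (f := fun j => q ^ j * u j) (hab 0)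
          simpa using this
      _ ≤ ∑' j, q ^ J * (2 * t * q ^ N + 2 * (p⁻¹) ^ N) * sc p q (j - (J + N)) :=
          (hab 0).tsum_le_tsum (key N) ((hsum _).mul_left _)
      _ = q ^ J * (2 * t * q ^ N + 2 * (p⁻¹) ^ N) * ∑' i, sc p q i := by
          rw [tsum_mul_left, htsum]
      _ ≤ d ^ α * (2 * t * q ^ N + 2 * (p⁻¹) ^ N) * ∑' i, sc p q i := by
          refine mul_le_mul_of_nonneg_right (mul_le_mul_of_nonneg_right hJα ?_) hS
          positivity
      _ = (∑' i, sc p q i) * (2 * t * q ^ N + 2 * (p⁻¹) ^ N) * d ^ α := by ring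

/-- partial sums over `[-n, n)` -/
theorem tendsto_Ico_int : Tendsto (fun n : ℕ => Finset.Ico (-(n : ℤ)) n) atTop atTop := by
  refine tendsto_atTop_finset_of_monotone (fun m n hmn => ?_) fun x => ?_
  · refine Finset.Ico_subset_Ico ?_ ?_ <;> omega
  · refine ⟨x.natAbs + 1, ?_⟩
    rw [Finset.mem_Ico]
    omega

theorem sum_Ico_int (a : ℤ → ℝ) (n : ℕ) :
    ∑ j ∈ Finset.Ico (-(n : ℤ)) n, (a j - a (j + 1)) = a (-(n : ℤ)) - a n := by
  induction n with
  | zero => simp
  | succ n ih =>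
    have e1 : Finset.Ico (-((n + 1 : ℕ) : ℤ)) ((n + 1 : ℕ) : ℤ) =
        insert (-((n + 1 : ℕ) : ℤ)) (insert (n : ℤ) (Finset.Ico (-(n : ℤ)) n)) := by
      ext x
      simp only [Finset.mem_Ico, Finset.mem_insert]
      push_cast
      omega
    rw [e1, Finset.sum_insert, Finset.sum_insert, ih]
    · push_cast
      have e2 : -((n : ℤ) + 1) + 1 = -(n : ℤ) := by ring
      rw [e2]
      ring
    · simp
    · simp only [Finset.mem_Ico, Finset.mem_insert, not_or, not_and, not_lt]
      push_cast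
      constructor
      · omega
      · intro h
        omega

/-- telescoping over the integers -/
theorem tsum_tele {a : ℤ → ℝ} (hs : Summable fun j => a j - a (j + 1)) {l : ℝ}
    (h1 : Tendsto (fun n : ℕ => a (-(n : ℤ))) atTop (𝓝 l))
    (h2 : Tendsto (fun n : ℕ => a n) atTop (𝓝 0)) : ∑' j, (a j - a (j + 1)) = l := by
  have h3 := hs.hasSum.comp tendsto_Ico_int
  have h4 : Tendsto (fun n : ℕ => a (-(n : ℤ)) - a n) atTop (𝓝 (l - 0)) := h1.sub h2
  rw [sub_zero] at h4
  refine tendsto_nhds_unique h3 (h4.congr fun n => ?_)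
  exact (sum_Ico_int a n).symm

end

end Pool.Agent.MP312e4a
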