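import Mathlib

/-!
# Uniform boundedness on spaces of functions with a Lipschitz type condition
-/

namespace Pool.Agent.MP312e4a

open Filter Topology

/-- `f` vanishes at `x0` and `|f x - f y| ≤ K ρ(x,y)` -/
def HK {X : Type*} (ρ : X → X → ℝ) (x0 : X) (K : ℝ) (f : X → ℝ) : Prop :=
  f x0 = 0 ∧ ∀ x y, |f x - f y| ≤ K * ρ x y

section

variable {X : Type*} {ρ : X → X → ℝ} {x0 : X}

theorem HK.smul {K : ℝ} {f : X → ℝ} (h : HK ρ x0 K f) (c : ℝ) : HK ρ x0 (|c| * K) (c • f) := by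
  refine ⟨by rw [Pi.smul_apply, h.1, smul_zero], fun x y => ?_⟩
  rw [Pi.smul_apply, Pi.smul_apply, smul_eq_mul, smul_eq_mul, ← mul_sub, abs_mul, mul_assoc]
  exact mul_le_mul_of_nonneg_left (h.2 x y) (abs_nonneg c)

theorem HK.add {K K' : ℝ} {f g : X → ℝ} (h : HK ρ x0 K f) (h' : HK ρ x0 K' g) :
    HK ρ x0 (K + K') (f + g) := by
  refine ⟨by rw [Pi.add_apply, h.1, h'.1, add_zero], fun x y => ?_⟩
  rw [Pi.add_apply, Pi.add_apply, add_mul]
  have e : f x + g x - (f y + g y) = (f x - f y) + (g x - g y) := by ring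
  rw [e]
  exact (abs_add_le _ _).trans (add_le_add (h.2 x y) (h'.2 x y))

/-- the space `ℓ¹` -/
abbrev ell := lp (fun _ : ℕ => ℝ) 1

theorem ell_summable (a : ell) : Summable fun k => |a k| := by
  have h := (lp.memℓp a).summable (by norm_num)
  simpa using h

theorem ell_norm (a : ell) : ‖a‖ = ∑' k, |a k| := by
  have h := lp.norm_eq_tsum_rpow (p := 1) (by norm_num) a
  simpa using h

variable {f : ℕ → X → ℝ} (hf : ∀ k, HK ρ x0 1 (f k))
include hf

theorem sum_abs_le (a : ell) (x y : X) : Summable (fun k => a k * (f k x - f k y)) ∧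
    |∑' k, a k * (f k x - f k y)| ≤ ‖a‖ * ρ x y := by
  have h1 : ∀ k, |a k * (f k x - f k y)| ≤ |a k| * ρ x y := fun k => by
    rw [abs_mul]
    have := (hf k).2 x y
    rw [one_mul] at this
    exact mul_le_mul_of_nonneg_left this (abs_nonneg _)
  have h2 : Summable fun k => |a k| * ρ x y := (ell_summable a).mul_right _
  have h3 : Summable fun k => |a k * (f k x - f k y)| :=
    Summable.of_nonneg_of_le (fun k => abs_nonneg _) h1 h2
  refine ⟨h3.of_abs, ?_⟩
  calc |∑' k, a k * (f k x - f k y)| ≤ ∑' k, |a k * (f k x - f k y)| := by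
        have := norm_tsum_le_tsum_norm (f := fun k => a k * (f k x - f k y)) h3
        simpa using this
    _ ≤ ∑' k, |a k| * ρ x y := h3.tsum_le_tsum h1 h2
    _ = ‖a‖ * ρ x y := by rw [tsum_mul_right, ell_norm]

theorem sum_summable (a : ell) (x : X) : Summable fun k => a k * f k x := by
  have h := (sum_abs_le hf a x x0).1
  refine h.congr fun k => ?_
  rw [(hf k).1, sub_zero]

/-- sums of series -/
noncomputable def Ts (f : ℕ → X → ℝ) (a : ell) : X → ℝ := fun x => ∑' k, a k * f k x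

theorem Ts_HK (a : ell) : HK ρ x0 ‖a‖ (Ts f a) := by
  refine ⟨?_, fun x y => ?_⟩
  · unfold Ts
    have : ∀ k, a k * f k x0 = 0 := fun k => by rw [(hf k).1, mul_zero]
    simp [this]
  · have h1 := sum_abs_le hf a x y
    have h2 : Ts f a x - Ts f a y = ∑' k, a k * (f k x - f k y) := by
      unfold Ts
      rw [← (sum_summable hf a x).tsum_sub (sum_summable hf a y)]
      congr 1
      funext k
      ring
    rw [h2]
    exact h1.2

theorem Ts_add (a b : ell) : Ts f (a + b) = Ts f a + Ts f b := by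
  funext x
  rw [Pi.add_apply]
  unfold Ts
  rw [← (sum_summable hf a x).tsum_add (sum_summable hf b x)]
  congr 1
  funext k
  rw [lp.coeFn_add, Pi.add_apply]
  ring

omit hf in
theorem Ts_smul (c : ℝ) (a : ell) : Ts f (c • a) = c • Ts f a := by
  funext x
  rw [Pi.smul_apply, smul_eq_mul]
  unfold Ts
  rw [← tsum_mul_left]
  congr 1
  funext k
  rw [lp.coeFn_smul, Pi.smul_apply, smul_eq_mul]
  ring

end

/-- **Uniform boundedness.** -/
theorem unif_bdd {X : Type*} {ρ : X → X → ℝ} {x0 : X} {φ : ℕ → (X → ℝ) → ℝ}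
    (hlin : ∀ n f g, (∃ K, 0 ≤ K ∧ HK ρ x0 K f) → (∃ K, 0 ≤ K ∧ HK ρ x0 K g) → ∀ a b : ℝ,
      φ n (a • f + b • g) = a * φ n f + b * φ n g)
    (hb : ∀ n, ∃ C : ℝ, ∀ f K, 0 ≤ K → HK ρ x0 K f → |φ n f| ≤ C * K)
    (hpt : ∀ f, (∃ K, 0 ≤ K ∧ HK ρ x0 K f) → ∃ C, ∀ n, |φ n f| ≤ C) :
    ∃ C : ℝ, 0 ≤ C ∧ ∀ n f K, 0 ≤ K → HK ρ x0 K f → |φ n f| ≤ C * K := by
  classical
  have hz : ∀ n, φ n 0 = 0 := fun n => by
    have h0 : ∃ K, 0 ≤ K ∧ HK ρ x0 K (0 : X → ℝ) := ⟨0, le_rfl, rfl, fun x y => by simp⟩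
    have := hlin n 0 0 h0 h0 0 0
    simpa using this
  -- it suffices to treat `K = 1`
  suffices h : ∃ C : ℝ, 0 ≤ C ∧ ∀ n f, HK ρ x0 1 f → |φ n f| ≤ C by
    obtain ⟨C, hC, h⟩ := h
    refine ⟨C, hC, fun n f K hK hf => ?_⟩
    rcases hK.eq_or_lt with h0 | h0
    · have : f = 0 := by
        funext x
        have h1 := hf.2 x x0
        rw [← h0, zero_mul, hf.1, sub_zero] at h1
        exact abs_eq_zero.1 (le_antisymm h1 (abs_nonneg _))
      rw [this, hz, abs_zero, ← h0, mul_zero]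
    · have h1 : HK ρ x0 1 (K⁻¹ • f) := by
        have := hf.smul K⁻¹
        rwa [abs_of_pos (inv_pos.2 h0), inv_mul_cancel₀ h0.ne'] at this
      have h2 := h n _ h1
      have h3 : f = K • (K⁻¹ • f) + (0 : ℝ) • f := by
        rw [smul_smul, mul_inv_cancel₀ h0.ne', one_smul, zero_smul, add_zero]
      have h4 : φ n f = K * φ n (K⁻¹ • f) := by
        conv_lhs => rw [h3]
        rw [hlin n _ _ ⟨1, zero_le_one, h1⟩ ⟨K, hK, hf⟩, zero_mul, add_zero]
      rw [h4, abs_mul, abs_of_pos h0, mul_comm]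
      exact mul_le_mul_of_nonneg_right h2 hK
  by_contra hcon
  push Not at hcon
  have h1 : ∀ k : ℕ, ∃ n f, HK ρ x0 1 f ∧ (k : ℝ) < |φ n f| := fun k => by
    obtain ⟨n, f, hf, h⟩ := hcon k (Nat.cast_nonneg k)
    exact ⟨n, f, hf, h⟩
  choose N f hf hk using h1
  choose C hC using hb
  have hW : ∀ a : ell, ∃ K, 0 ≤ K ∧ HK ρ x0 K (Ts f a) := fun a => ⟨‖a‖, norm_nonneg a, Ts_HK hf a⟩
  let L : ℕ → ell →L[ℝ] ℝ := fun n => LinearMap.mkContinuous
    { toFun := fun a => φ n (Ts f a)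
      map_add' := fun a b => by
        rw [Ts_add hf]
        have := hlin n _ _ (hW a) (hW b) 1 1
        simpa using this
      map_smul' := fun c a => by
        rw [Ts_smul]
        have := hlin n _ _ (hW a) (hW a) c 0
        simpa using this } (C n) (fun a => hC n _ _ (norm_nonneg a) (Ts_HK hf a))
  have hL : ∀ n a, L n a = φ n (Ts f a) := fun n a => rfl
  obtain ⟨C', hC'⟩ := banach_steinhaus (g := L) (fun a => by
    obtain ⟨D, hD⟩ := hpt _ (hW a)
    exact ⟨D, fun n => by rw [hL]; exact hD n⟩)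
  obtain ⟨k, hkC⟩ := exists_nat_gt C'
  have h2 := hk k
  have h3 : Ts f (lp.single 1 k 1) = f k := by
    funext x
    unfold Ts
    rw [tsum_eq_single k]
    · simp
    · intro j hj
      rw [lp.single_apply_ne _ _ _ hj, zero_mul]
  have h4 : |φ (N k) (f k)| ≤ C' := by
    have h5 := (L (N k)).le_opNorm (lp.single 1 k 1)
    rw [hL, h3] at h5
    have h6 : ‖(lp.single 1 k 1 : ell)‖ = 1 := by
      rw [lp.norm_single (by norm_num)]
      simp
    rw [h6, mul_one] at h5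
    exact h5.trans (hC' _)
  linarith

end Pool.Agent.MP312e4a
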