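import Pool.Agent.Lib.MP_312e4a.Core
import Pool.Agent.Lib.MP_312e4a.Scale
import Pool.Agent.Lib.MP_312e4a.UB

/-!
# Hölder functions as sums over scales
-/

namespace Pool.Agent.MP312e4a

open Filter Topology

theorem abs_iSup_sub_le {a b : ℕ → ℝ} {C D : ℝ} (ha : ∀ n, |a n| ≤ D) (hb : ∀ n, |b n| ≤ D)
    (h : ∀ n, |a n - b n| ≤ C) : |(⨆ n, a n) - ⨆ n, b n| ≤ C := by
  have h1 : BddAbove (Set.range a) := ⟨D, by rintro _ ⟨n, rfl⟩; exact (abs_le.1 (ha n)).2⟩
  have h2 : BddAbove (Set.range b) := ⟨D, by rintro _ ⟨n, rfl⟩; exact (abs_le.1 (hb n)).2⟩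
  rw [abs_le]
  constructor
  · have : (⨆ n, b n) ≤ (⨆ n, a n) + C := ciSup_le fun n => by
      have e1 := (abs_le.1 (h n)).1
      have e2 := le_ciSup h1 n
      linarith
    linarith
  · have : (⨆ n, a n) ≤ (⨆ n, b n) + C := ciSup_le fun n => by
      have e1 := (abs_le.1 (h n)).2
      have e2 := le_ciSup h2 n
      linarith
    linarith

theorem abs_iSup_le {a : ℕ → ℝ} {D : ℝ} (ha : ∀ n, |a n| ≤ D) : |⨆ n, a n| ≤ D := by
  have h1 : BddAbove (Set.range a) := ⟨D, by rintro _ ⟨n, rfl⟩; exact (abs_le.1 (ha n)).2⟩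
  rw [abs_le]
  constructor
  · exact (abs_le.1 (ha 0)).1.trans (le_ciSup h1 0)
  · exact ciSup_le fun n => (abs_le.1 (ha n)).2

variable {X : Type*} [PseudoMetricSpace X]

/-- the ball of functions on `ℤ × X` -/
def BH (X : Type*) [PseudoMetricSpace X] : Set (ℤ × X → ℝ) :=
  {h | (∀ z, |h z| ≤ 1) ∧ ∀ j x y, |h (j, x) - h (j, y)| ≤ dist x y * 2 ^ (-j)}

theorem isBall_BH : IsBall (BH X) where
  zero := ⟨fun z => by simp, fun j x y => by
    have : (0 : ℝ) < 2 ^ (-j) := zpow_pos (by norm_num) _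
    simp only [Pi.zero_apply, sub_zero, abs_zero]
    positivity⟩
  bdd := fun h hh x => hh.1 x
  comb := by
    rintro h ⟨h1, h2⟩ g ⟨g1, g2⟩ s t hst
    refine ⟨fun z => ?_, fun j x y => ?_⟩
    · rw [Pi.add_apply, Pi.smul_apply, Pi.smul_apply, smul_eq_mul, smul_eq_mul]
      calc |s * h z + t * g z| ≤ |s * h z| + |t * g z| := abs_add_le _ _
        _ = |s| * |h z| + |t| * |g z| := by rw [abs_mul, abs_mul]
        _ ≤ |s| * 1 + |t| * 1 := add_le_add (mul_le_mul_of_nonneg_left (h1 z) (abs_nonneg _))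
            (mul_le_mul_of_nonneg_left (g1 z) (abs_nonneg _))
        _ ≤ 1 := by linarith
    · have hD : 0 ≤ dist x y * 2 ^ (-j) := mul_nonneg dist_nonneg (zpow_nonneg (by norm_num) _)
      have e : (s • h + t • g) (j, x) - (s • h + t • g) (j, y)
          = s * (h (j, x) - h (j, y)) + t * (g (j, x) - g (j, y)) := by
        simp only [Pi.add_apply, Pi.smul_apply, smul_eq_mul]
        ring
      rw [e]
      calc |s * (h (j, x) - h (j, y)) + t * (g (j, x) - g (j, y))|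
          ≤ |s * (h (j, x) - h (j, y))| + |t * (g (j, x) - g (j, y))| := abs_add_le _ _
        _ = |s| * |h (j, x) - h (j, y)| + |t| * |g (j, x) - g (j, y)| := by rw [abs_mul, abs_mul]
        _ ≤ |s| * (dist x y * 2 ^ (-j)) + |t| * (dist x y * 2 ^ (-j)) :=
            add_le_add (mul_le_mul_of_nonneg_left (h2 j x y) (abs_nonneg _))
              (mul_le_mul_of_nonneg_left (g2 j x y) (abs_nonneg _))
        _ = (|s| + |t|) * (dist x y * 2 ^ (-j)) := by ring
        _ ≤ 1 * (dist x y * 2 ^ (-j)) := mul_le_mul_of_nonneg_right hst hD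
        _ = dist x y * 2 ^ (-j) := one_mul _
  sup := fun f hf => ⟨fun z => abs_iSup_le fun n => (hf n).1 z, fun j x y =>
    abs_iSup_sub_le (fun n => (hf n).1 _) (fun n => (hf n).1 _) fun n => (hf n).2 j x y⟩

/-- sums over scales -/
noncomputable def Ph (q : ℝ) (x0 : X) (h : ℤ × X → ℝ) : X → ℝ :=
  fun x => ∑' j : ℤ, q ^ j * (h (j, x) - h (j, x0))

section

variable {p q α : ℝ} (hp : 1 < p) (hq : 1 < q) (hpq : p * q = 2) (hα : 0 < α)
  (hqα : q = (2 : ℝ) ^ α)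
include hp hq hpq hα hqα

theorem BH_scale {h : ℤ × X → ℝ} (hh : h ∈ BH X) {t : ℝ} (ht : 0 ≤ t) (hle : ∀ z, |h z| ≤ t) (x y : X) :
    Summable (fun j : ℤ => q ^ j * (h (j, x) - h (j, y))) ∧
      ∀ N : ℕ, |∑' j : ℤ, q ^ j * (h (j, x) - h (j, y))| ≤
        (∑' i, sc p q i) * (2 * t * q ^ N + 2 * (p⁻¹) ^ N) * dist x y ^ α := by
  refine scale_sum hp hq hpq hα hqα dist_nonneg ht fun j => le_min ?_ (hh.2 j x y)
  have h1 := abs_le.1 (hle (j, x))
  have h2 := abs_le.1 (hle (j, y))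
  rw [abs_le]
  constructor <;> linarith

theorem Bl_summable {L : ℝ} {h : ℤ × X → ℝ} (hh : h ∈ Bl (BH X) L) (x y : X) :
    Summable (fun j : ℤ => q ^ j * (h (j, x) - h (j, y))) := by
  obtain ⟨g, hg, rfl⟩ := hh
  have h1 := (BH_scale hp hq hpq hα hqα hg zero_le_one hg.1 x y).1.mul_left L
  refine h1.congr fun j => ?_
  rw [Pi.smul_apply, Pi.smul_apply, smul_eq_mul, smul_eq_mul]
  ring

theorem Ph_lin {x0 : X} {h g : ℤ × X → ℝ} (hh : Wd (BH X) h) (hg : Wd (BH X) g) (s t : ℝ) :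
    Ph q x0 (s • h + t • g) = s • Ph q x0 h + t • Ph q x0 g := by
  obtain ⟨L, hL, h1⟩ := hh
  obtain ⟨L', hL', h2⟩ := hg
  funext x
  rw [Pi.add_apply, Pi.smul_apply, Pi.smul_apply, smul_eq_mul, smul_eq_mul]
  unfold Ph
  have e1 := Bl_summable hp hq hpq hα hqα h1 x x0
  have e2 := Bl_summable hp hq hpq hα hqα h2 x x0
  rw [← tsum_mul_left, ← tsum_mul_left, ← (e1.mul_left s).tsum_add (e2.mul_left t)]
  congr 1
  funext j
  simp only [Pi.add_apply, Pi.smul_apply, smul_eq_mul]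
  ring

theorem Ph_HK {x0 : X} {h : ℤ × X → ℝ} (hh : h ∈ BH X) {t : ℝ} (ht : 0 ≤ t) (hle : ∀ z, |h z| ≤ t) (N : ℕ) :
    HK (fun x y : X => dist x y ^ α) x0 ((∑' i, sc p q i) * (2 * t * q ^ N + 2 * (p⁻¹) ^ N)) (Ph q x0 h) := by
  refine ⟨?_, fun x y => ?_⟩
  · unfold Ph
    simp
  · have e1 := (BH_scale hp hq hpq hα hqα hh ht hle x x0).1
    have e2 := (BH_scale hp hq hpq hα hqα hh ht hle y x0).1
    have e3 : Ph q x0 h x - Ph q x0 h y = ∑' j : ℤ, q ^ j * (h (j, x) - h (j, y)) := by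
      unfold Ph
      rw [← e1.tsum_sub e2]
      congr 1
      funext j
      ring
    rw [e3]
    exact (BH_scale hp hq hpq hα hqα hh ht hle x y).2 N

end

/-- infimal convolutions -/
noncomputable def Tj (p : ℝ) (f : X → ℝ) (j : ℤ) (x : X) : ℝ := ⨅ y, (f y + p ^ (-j) * dist x y)

section

variable {p q α : ℝ} (hp : 1 < p) (hq : 1 < q) (hpq : p * q = 2) (hα : 0 < α) (hα1 : α < 1)
  (hqα : q = (2 : ℝ) ^ α)

include hp hq hpq hα hα1 hqα in
theorem key_ineq (j : ℤ) {s : ℝ} (hs : 0 ≤ s) : s ^ α ≤ p ^ (-j) * s + q ^ j := by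
  have hp0 : 0 < p := by linarith
  have hq0 : 0 < q := by linarith
  have h2 : (0 : ℝ) < 2 ^ j := zpow_pos (by norm_num) _
  set u := s / 2 ^ j with hu
  have hu0 : 0 ≤ u := div_nonneg hs h2.le
  have hsu : s = 2 ^ j * u := by rw [hu]; field_simp
  have e : q ^ j = ((2 : ℝ) ^ j) ^ α := by
    rw [hqα, ← Real.rpow_intCast, ← Real.rpow_intCast, ← Real.rpow_mul (by norm_num),
      ← Real.rpow_mul (by norm_num), mul_comm]
  have h3 : s ^ α = q ^ j * u ^ α := by
    rw [e, ← Real.mul_rpow h2.le hu0, ← hsu]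
  have h4 : u ^ α ≤ u + 1 := by
    rcases le_total u 1 with h | h
    · have := Real.rpow_le_one hu0 h hα.le
      linarith
    · have := Real.rpow_le_rpow_of_exponent_le h hα1.le
      rw [Real.rpow_one] at this
      linarith
  have h5 : p ^ (-j) * s = q ^ j * u := by
    rw [hsu]
    have : (2 : ℝ) ^ j = p ^ j * q ^ j := by rw [← hpq, mul_zpow]
    rw [this, zpow_neg]
    have hpj : p ^ j ≠ 0 := (zpow_pos hp0 j).ne'
    field_simp
  rw [h3, h5]
  calc q ^ j * u ^ α ≤ q ^ j * (u + 1) := mul_le_mul_of_nonneg_left h4 (zpow_nonneg hq0.le _)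
    _ = q ^ j * u + q ^ j := by ring

variable {f : X → ℝ} (hf : ∀ x y, |f x - f y| ≤ dist x y ^ α)
include hp hq hpq hα hα1 hqα hf

theorem Tj_lower (j : ℤ) (x y : X) : f x - q ^ j ≤ f y + p ^ (-j) * dist x y := by
  have h1 := (abs_le.1 (hf x y)).2
  have h2 := key_ineq hp hq hpq hα hα1 hqα j (dist_nonneg (x := x) (y := y))
  linarith

theorem Tj_bdd (j : ℤ) (x : X) : BddBelow (Set.range fun y => f y + p ^ (-j) * dist x y) :=
  ⟨f x - q ^ j, by rintro _ ⟨y, rfl⟩; exact Tj_lower hp hq hpq hα hα1 hqα hf j x y⟩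

theorem le_Tj (j : ℤ) (x : X) : f x - q ^ j ≤ Tj p f j x :=
  have : Nonempty X := ⟨x⟩
  le_ciInf fun y => Tj_lower hp hq hpq hα hα1 hqα hf j x y

theorem Tj_le (j : ℤ) (x y : X) : Tj p f j x ≤ f y + p ^ (-j) * dist x y :=
  ciInf_le (Tj_bdd hp hq hpq hα hα1 hqα hf j x) y

theorem Tj_le_self (j : ℤ) (x : X) : Tj p f j x ≤ f x := by
  have := Tj_le hp hq hpq hα hα1 hqα hf j x x
  rwa [dist_self, mul_zero, add_zero] at this

theorem Tj_lip (j : ℤ) (x y : X) : |Tj p f j x - Tj p f j y| ≤ p ^ (-j) * dist x y := by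
  have : Nonempty X := ⟨x⟩
  have hp0 : 0 < p := by linarith
  have key : ∀ x y : X, Tj p f j x ≤ Tj p f j y + p ^ (-j) * dist x y := by
    intro x y
    have h1 : Tj p f j x - p ^ (-j) * dist x y ≤ Tj p f j y := by
      refine le_ciInf fun z => ?_
      have h2 := Tj_le hp hq hpq hα hα1 hqα hf j x z
      have h3 : p ^ (-j) * dist x z ≤ p ^ (-j) * (dist x y + dist y z) :=
        mul_le_mul_of_nonneg_left (dist_triangle _ _ _) (zpow_nonneg hp0.le _)
      linarith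
    linarith
  have h1 := key x y
  have h2 := key y x
  rw [dist_comm y x] at h2
  rw [abs_le]
  constructor <;> linarith

theorem Tj_anti (j : ℤ) (x : X) : Tj p f (j + 1) x ≤ Tj p f j x := by
  have : Nonempty X := ⟨x⟩
  have hp0 : 0 < p := by linarith
  refine le_ciInf fun y => (Tj_le hp hq hpq hα hα1 hqα hf (j + 1) x y).trans ?_
  have h1 : p ^ (-(j + 1)) ≤ p ^ (-j) := zpow_le_zpow_right₀ hp.le (by omega)
  have h2 := mul_le_mul_of_nonneg_right h1 (dist_nonneg (x := x) (y := y))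
  linarith

/-- **Every Hölder function is a sum over scales.** -/
theorem Ph_onto {x0 : X} (h0 : f x0 = 0) : ∃ h ∈ Bl (BH X) 2, Ph q x0 h = f := by
  have hp0 : 0 < p := by linarith
  have hq0 : 0 < q := by linarith
  have hq2 : q ≤ 2 := by
    rw [← hpq]
    nlinarith
  let h : ℤ × X → ℝ := fun z => q ^ (-z.1) * (Tj p f z.1 z.2 - Tj p f (z.1 + 1) z.2)
  have hb1 : ∀ z, |h z| ≤ 2 := by
    rintro ⟨j, x⟩
    have e1 := Tj_anti hp hq hpq hα hα1 hqα hf j x
    have e2 := Tj_le_self hp hq hpq hα hα1 hqα hf j x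
    have e3 := le_Tj hp hq hpq hα hα1 hqα hf (j + 1) x
    change |q ^ (-j) * (Tj p f j x - Tj p f (j + 1) x)| ≤ 2
    have hqj : 0 < q ^ (-j) := zpow_pos hq0 _
    rw [abs_mul, abs_of_pos hqj, abs_of_nonneg (by linarith)]
    calc q ^ (-j) * (Tj p f j x - Tj p f (j + 1) x) ≤ q ^ (-j) * q ^ (j + 1) :=
          mul_le_mul_of_nonneg_left (by linarith) hqj.le
      _ = q := by
          rw [← zpow_add₀ hq0.ne']
          have : -j + (j + 1) = 1 := by ring
          rw [this, zpow_one]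
      _ ≤ 2 := hq2
  have hb2 : ∀ j x y, |h (j, x) - h (j, y)| ≤ 2 * (dist x y * 2 ^ (-j)) := by
    intro j x y
    have e1 := Tj_lip hp hq hpq hα hα1 hqα hf j x y
    have e2 := Tj_lip hp hq hpq hα hα1 hqα hf (j + 1) x y
    have e3 : p ^ (-(j + 1)) ≤ p ^ (-j) := zpow_le_zpow_right₀ hp.le (by omega)
    have e4 := mul_le_mul_of_nonneg_right e3 (dist_nonneg (x := x) (y := y))
    have hqj : 0 < q ^ (-j) := zpow_pos hq0 _
    have e5 : h (j, x) - h (j, y) = q ^ (-j) * ((Tj p f j x - Tj p f j y) -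
        (Tj p f (j + 1) x - Tj p f (j + 1) y)) := by
      change q ^ (-j) * (Tj p f j x - Tj p f (j + 1) x) - q ^ (-j) * (Tj p f j y - Tj p f (j + 1) y) = _
      ring
    rw [e5, abs_mul, abs_of_pos hqj]
    have e6 := abs_sub (Tj p f j x - Tj p f j y) (Tj p f (j + 1) x - Tj p f (j + 1) y)
    have e7 : |(Tj p f j x - Tj p f j y) - (Tj p f (j + 1) x - Tj p f (j + 1) y)| ≤
        2 * (p ^ (-j) * dist x y) := by linarith
    calc q ^ (-j) * |(Tj p f j x - Tj p f j y) - (Tj p f (j + 1) x - Tj p f (j + 1) y)|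
        ≤ q ^ (-j) * (2 * (p ^ (-j) * dist x y)) := mul_le_mul_of_nonneg_left e7 hqj.le
      _ = 2 * (dist x y * 2 ^ (-j)) := by
          rw [← hpq, mul_zpow]
          ring
  have hmem : h ∈ Bl (BH X) 2 := by
    refine ⟨(1 / 2 : ℝ) • h, ⟨fun z => ?_, fun j x y => ?_⟩, ?_⟩
    · rw [Pi.smul_apply, smul_eq_mul, abs_mul, abs_of_pos (by norm_num)]
      have := hb1 z
      linarith
    · rw [Pi.smul_apply, Pi.smul_apply, smul_eq_mul, smul_eq_mul, ← mul_sub, abs_mul,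
        abs_of_pos (by norm_num)]
      have := hb2 j x y
      linarith
    · rw [smul_smul]
      norm_num
  refine ⟨h, hmem, ?_⟩
  funext x
  have hs := Bl_summable hp hq hpq hα hqα hmem x x0
  let a : ℤ → ℝ := fun j => Tj p f j x - Tj p f j x0
  have hterm : ∀ j : ℤ, q ^ j * (h (j, x) - h (j, x0)) = a j - a (j + 1) := by
    intro j
    change q ^ j * (q ^ (-j) * (Tj p f j x - Tj p f (j + 1) x) -
      q ^ (-j) * (Tj p f j x0 - Tj p f (j + 1) x0)) =
      (Tj p f j x - Tj p f j x0) - (Tj p f (j + 1) x - Tj p f (j + 1) x0)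
    have e1 : q ^ j * q ^ (-j) = 1 := by
      rw [← zpow_add₀ hq0.ne', add_neg_cancel, zpow_zero]
    calc q ^ j * (q ^ (-j) * (Tj p f j x - Tj p f (j + 1) x) -
          q ^ (-j) * (Tj p f j x0 - Tj p f (j + 1) x0))
        = (q ^ j * q ^ (-j)) * ((Tj p f j x - Tj p f (j + 1) x) -
          (Tj p f j x0 - Tj p f (j + 1) x0)) := by ring
      _ = _ := by rw [e1]; ring
  have hfun : (fun j : ℤ => q ^ j * (h (j, x) - h (j, x0))) = fun j => a j - a (j + 1) :=
    funext hterm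
  change ∑' j : ℤ, q ^ j * (h (j, x) - h (j, x0)) = f x
  rw [hfun] at hs ⊢
  -- limits at both ends
  have hlim : ∀ y : X, Tendsto (fun n : ℕ => Tj p f (-(n : ℤ)) y) atTop (𝓝 (f y)) := by
    intro y
    have h1 : Tendsto (fun n : ℕ => f y - (q⁻¹) ^ n) atTop (𝓝 (f y - 0)) :=
      tendsto_const_nhds.sub (tendsto_pow_atTop_nhds_zero_of_lt_one (inv_nonneg.2 hq0.le)
        (inv_lt_one_of_one_lt₀ hq))
    rw [sub_zero] at h1
    refine tendsto_of_tendsto_of_tendsto_of_le_of_le h1 tendsto_const_nhds (fun n => ?_)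
      (fun n => Tj_le_self hp hq hpq hα hα1 hqα hf _ y)
    have := le_Tj hp hq hpq hα hα1 hqα hf (-(n : ℤ)) y
    rw [zpow_neg, zpow_natCast, ← inv_pow] at this
    exact this
  refine tsum_tele hs ?_ ?_
  · have h1 := (hlim x).sub (hlim x0)
    rw [h0, sub_zero] at h1
    exact h1
  · have h1 : Tendsto (fun n : ℕ => (p⁻¹) ^ n * dist x x0) atTop (𝓝 (0 * dist x x0)) :=
      (tendsto_pow_atTop_nhds_zero_of_lt_one (inv_nonneg.2 hp0.le)
        (inv_lt_one_of_one_lt₀ hp)).mul_const _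
    rw [zero_mul] at h1
    refine squeeze_zero_norm (fun n => ?_) h1
    have := Tj_lip hp hq hpq hα hα1 hqα hf (n : ℤ) x x0
    rw [zpow_neg, zpow_natCast, ← inv_pow] at this
    exact this

end

end Pool.Agent.MP312e4a
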