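import Pool.Agent.Lib.MP_312e4a.Holder

/-!
# Lipschitz functions divided by the weight `1 + d(x, x0)`
-/

namespace Pool.Agent.MP312e4a

open Filter Topology

variable {X : Type*} [PseudoMetricSpace X]

/-- the functions `h` such that `(1 + d(x, x0)) h(x)` is 1-Lipschitz and vanishes at `x0` -/
def BL (x0 : X) : Set (X → ℝ) :=
  {h | h x0 = 0 ∧ ∀ x y, |(1 + dist x x0) * h x - (1 + dist y x0) * h y| ≤ dist x y}

theorem BL_abs {x0 : X} {h : X → ℝ} (hh : h ∈ BL x0) (x : X) : |h x| ≤ 1 := by
  have h1 := hh.2 x x0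
  rw [hh.1, mul_zero, sub_zero, abs_mul, abs_of_pos (by positivity)] at h1
  have hd : 0 ≤ dist x x0 := dist_nonneg
  by_contra hcon
  push Not at hcon
  nlinarith

theorem isBall_BL (x0 : X) : IsBall (BL x0) where
  zero := ⟨rfl, fun x y => by
    simp only [Pi.zero_apply, mul_zero, sub_zero, abs_zero]
    exact dist_nonneg⟩
  bdd := fun h hh x => BL_abs hh x
  comb := by
    rintro h ⟨h1, h2⟩ g ⟨g1, g2⟩ s t hst
    refine ⟨by simp [h1, g1], fun x y => ?_⟩
    have hD : 0 ≤ dist x y := dist_nonneg
    have e : (1 + dist x x0) * (s • h + t • g) x - (1 + dist y x0) * (s • h + t • g) y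
        = s * ((1 + dist x x0) * h x - (1 + dist y x0) * h y) +
          t * ((1 + dist x x0) * g x - (1 + dist y x0) * g y) := by
      simp only [Pi.add_apply, Pi.smul_apply, smul_eq_mul]
      ring
    rw [e]
    calc |s * ((1 + dist x x0) * h x - (1 + dist y x0) * h y) +
          t * ((1 + dist x x0) * g x - (1 + dist y x0) * g y)|
        ≤ |s| * |(1 + dist x x0) * h x - (1 + dist y x0) * h y| +
          |t| * |(1 + dist x x0) * g x - (1 + dist y x0) * g y| := by
          rw [← abs_mul, ← abs_mul]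
          exact abs_add_le _ _
      _ ≤ |s| * dist x y + |t| * dist x y :=
          add_le_add (mul_le_mul_of_nonneg_left (h2 x y) (abs_nonneg _))
            (mul_le_mul_of_nonneg_left (g2 x y) (abs_nonneg _))
      _ = (|s| + |t|) * dist x y := by ring
      _ ≤ 1 * dist x y := mul_le_mul_of_nonneg_right hst hD
      _ = dist x y := one_mul _
  sup := fun f hf => by
    refine ⟨?_, fun x y => ?_⟩
    · have : ∀ n, f n x0 = 0 := fun n => (hf n).1
      simp [this]
    · have hw : ∀ z : X, 0 ≤ 1 + dist z x0 := fun z => by positivity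
      rw [Real.mul_iSup_of_nonneg (hw x), Real.mul_iSup_of_nonneg (hw y)]
      have hb : ∀ z : X, ∀ n, |(1 + dist z x0) * f n z| ≤ dist z x0 := fun z n => by
        have h1 := (hf n).2 z x0
        rwa [(hf n).1, mul_zero, sub_zero] at h1
      refine abs_iSup_sub_le (D := max (dist x x0) (dist y x0)) (fun n => ?_) (fun n => ?_)
        fun n => (hf n).2 x y
      · exact (hb x n).trans (le_max_left _ _)
      · exact (hb y n).trans (le_max_right _ _)

/-- the map `h ↦ (1 + d(·, x0)) h` -/
noncomputable def wt (x0 : X) (h : X → ℝ) : X → ℝ := fun x => (1 + dist x x0) * h x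

theorem wt_lin (x0 : X) (h g : X → ℝ) (s t : ℝ) : wt x0 (s • h + t • g) = s • wt x0 h + t • wt x0 g := by
  funext x
  simp only [wt, Pi.add_apply, Pi.smul_apply, smul_eq_mul]
  ring

end Pool.Agent.MP312e4a
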