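import Pool.Agent.Lib.MP_312e4a.Ball

/-!
# The minimax step
-/

namespace Pool.Agent.MP312e4a

open Filter Topology

variable {Γ : Type*}

theorem lin_sum {B : Set (Γ → ℝ)} (hB : IsBall B) {φ : (Γ → ℝ) → ℝ} (hφ : IsLin B φ) {g h : Γ → ℝ}
    (hg : g ∈ B) (hh : h ∈ B) (s t : ℝ) : φ (s • g + t • h) = s * φ g + t * φ h :=
  hφ g h (Wd_ball hB hg) (Wd_ball hB hh) s t

/-- **Minimax.** Either a convex combination of finitely many functionals is at most `δ'` on the ball or
all of them are larger than `δ` at one point of the ball. -/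
theorem minimax {B : Set (Γ → ℝ)} (hB : IsBall B) {ι : Type*} [Fintype ι] [Nonempty ι]
    (φ : ι → (Γ → ℝ) → ℝ) (hφ : ∀ i, IsLin B (φ i)) {δ δ' : ℝ} (h0 : 0 ≤ δ) (hδ : δ < δ') :
    (∃ w : ι → ℝ, (∀ i, 0 ≤ w i) ∧ ∑ i, w i = 1 ∧ ∀ g ∈ B, ∑ i, w i * φ i g ≤ δ') ∨
      ∃ g ∈ B, ∀ i, δ ≤ φ i g := by
  classical
  by_contra hcon
  push Not at hcon
  obtain ⟨hc1, hc2⟩ := hcon
  let D : Set (ι → ℝ) := (fun g : Γ → ℝ => fun i => φ i g) '' B
  let E : Set (ι → ℝ) := Set.pi Set.univ fun _ => Set.Ioi δ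
  have hE : IsOpen E := isOpen_set_pi Set.finite_univ fun _ _ => isOpen_Ioi
  have hEc : Convex ℝ E := convex_pi fun _ _ => convex_Ioi δ
  have hD : Convex ℝ D := by
    rintro _ ⟨g, hg, rfl⟩ _ ⟨h, hh, rfl⟩ s t hs ht hst
    refine ⟨s • g + t • h, hB.comb g hg h hh s t ?_, ?_⟩
    · rw [abs_of_nonneg hs, abs_of_nonneg ht, hst]
    · funext i
      simp only [Pi.add_apply, Pi.smul_apply, smul_eq_mul]
      exact lin_sum hB (hφ i) hg hh s t
  have hdis : Disjoint E D := by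
    rw [Set.disjoint_left]
    rintro _ hE' ⟨g, hg, rfl⟩
    obtain ⟨i, hi⟩ := hc2 g hg
    exact lt_irrefl _ (hi.trans (hE' i (Set.mem_univ _)))
  obtain ⟨f, u, hf1, hf2⟩ := geometric_hahn_banach_open hEc hE hD hdis
  -- coordinates of `f`
  let c : ι → ℝ := fun i => f (Pi.single i 1)
  have hfc : ∀ v : ι → ℝ, f v = ∑ i, v i * c i := by
    intro v
    have h1 : v = ∑ i, v i • (Pi.single i 1 : ι → ℝ) := by
      funext j
      rw [Finset.sum_apply, Finset.sum_eq_single j]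
      · simp
      · intro b _ hb
        simp [Pi.single_eq_of_ne' hb]
      · intro hj
        exact absurd (Finset.mem_univ j) hj
    conv_lhs => rw [h1]
    rw [map_sum]
    exact Finset.sum_congr rfl fun i _ => by rw [map_smul, smul_eq_mul]
  have hc : ∀ i, c i ≤ 0 := by
    intro i
    by_contra hi
    push Not at hi
    -- large multiples of the `i`th unit vector
    have h1 : ∀ R : ℝ, 0 ≤ R → (∑ j, (δ + 1) * c j) + R * c i < u := by
      intro R hR
      have h2 := hf1 (fun j => if j = i then δ + 1 + R else δ + 1) (by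
        intro j _
        change δ < if j = i then δ + 1 + R else δ + 1
        split_ifs <;> linarith)
      rw [hfc] at h2
      have h3 : ∑ j, (if j = i then δ + 1 + R else δ + 1) * c j = (∑ j, (δ + 1) * c j) + R * c i := by
        have h4 : ∀ j, (if j = i then δ + 1 + R else δ + 1) * c j
            = (δ + 1) * c j + if j = i then R * c j else 0 := by
          intro j
          split_ifs <;> ring
        rw [Finset.sum_congr rfl fun j _ => h4 j, Finset.sum_add_distrib, Finset.sum_ite_eq']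
        simp
      rwa [h3] at h2
    have h5 := h1 (|u - ∑ j, (δ + 1) * c j| / c i) (div_nonneg (abs_nonneg _) hi.le)
    rw [div_mul_cancel₀ _ hi.ne'] at h5
    have h6 := le_abs_self (u - ∑ j, (δ + 1) * c j)
    linarith
  set Λ := ∑ i, - c i with hΛ
  have hu0 : u ≤ 0 := by
    have h1 := hf2 (fun i => φ i 0) ⟨0, hB.zero, rfl⟩
    rw [hfc] at h1
    have h2 : ∑ i, φ i (0 : Γ → ℝ) * c i = 0 :=
      Finset.sum_eq_zero fun i _ => by rw [lin_zero hB (hφ i), zero_mul]
    rwa [h2] at h1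
  have hΛu : -(δ' * Λ) < u := by
    have h1 := hf1 (fun _ => δ') (fun j _ => hδ)
    rw [hfc] at h1
    have h2 : ∑ i, δ' * c i = -(δ' * Λ) := by
      rw [hΛ, Finset.sum_neg_distrib, ← Finset.mul_sum]
      ring
    rwa [h2] at h1
  have hΛ0 : 0 < Λ := by
    have hδ' : 0 < δ' := h0.trans_lt hδ
    by_contra hneg
    push Not at hneg
    have := mul_nonpos_of_nonneg_of_nonpos hδ'.le hneg
    linarith
  obtain ⟨g, hg, hgg⟩ := hc1 (fun i => - c i / Λ) (fun i => div_nonneg (neg_nonneg.2 (hc i)) hΛ0.le)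
    (by rw [← Finset.sum_div, ← hΛ, div_self hΛ0.ne'])
  have h1 := hf2 (fun i => φ i g) ⟨g, hg, rfl⟩
  rw [hfc] at h1
  have h2 : ∑ i, - c i / Λ * φ i g = -(∑ i, φ i g * c i) / Λ := by
    rw [← Finset.sum_neg_distrib, Finset.sum_div]
    exact Finset.sum_congr rfl fun i _ => by ring
  rw [h2, lt_div_iff₀ hΛ0] at hgg
  linarith

/-- The same for the first `N + 1` functionals of a sequence, with a two-sided bound. -/
theorem minimax_seq {B : Set (Γ → ℝ)} (hB : IsBall B) (φ : ℕ → (Γ → ℝ) → ℝ) (hφ : ∀ i, IsLin B (φ i))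
    {δ δ' : ℝ} (h0 : 0 ≤ δ) (hδ : δ < δ') (N : ℕ) :
    (∃ t : Finset ℕ, ∃ c : ℕ → ℝ, (∀ i ∈ t, 0 ≤ c i) ∧ ∑ i ∈ t, c i = 1 ∧
      ∀ g ∈ B, |∑ i ∈ t, c i * φ i g| ≤ δ') ∨ ∃ g ∈ B, ∀ i ≤ N, δ ≤ φ i g := by
  rcases minimax hB (fun i : Fin (N + 1) => φ i) (fun i => hφ i) h0 hδ with ⟨w, h1, h2, h3⟩ | ⟨g, hg, h1⟩
  · left
    refine ⟨Finset.range (N + 1), fun i => if h : i < N + 1 then w ⟨i, h⟩ else 0, ?_, ?_, ?_⟩
    · intro i _
      dsimp only
      split_ifs
      · exact h1 _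
      · exact le_rfl
    · rw [Finset.sum_range, ← h2]
      exact Finset.sum_congr rfl fun i _ => by rw [dif_pos i.2]
    · have key : ∀ g ∈ B, ∑ i ∈ Finset.range (N + 1), (if h : i < N + 1 then w ⟨i, h⟩ else 0) * φ i g ≤ δ' := by
        intro g hg
        rw [Finset.sum_range]
        refine le_of_eq_of_le ?_ (h3 g hg)
        exact Finset.sum_congr rfl fun i _ => by rw [dif_pos i.2]
      intro g hg
      refine abs_le.2 ⟨?_, key g hg⟩
      have h4 := key _ (ball_smul hB hg (s := -1) (by simp))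
      have h5 : ∀ i, φ i ((-1 : ℝ) • g) = - φ i g := fun i => by
        rw [lin_smul hB (hφ i) (Wd_ball hB hg)]
        ring
      simp only [h5, mul_neg, Finset.sum_neg_distrib] at h4
      linarith
  · right
    exact ⟨g, hg, fun i hi => h1 ⟨i, Nat.lt_succ_of_le hi⟩⟩

end Pool.Agent.MP312e4a
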