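import Pool.Agent.Lib.MP_312e4a.Ball

/-!
# Positive functionals dominating a functional (M. Riesz extension)
-/

namespace Pool.Agent.MP312e4a

open Filter Topology

variable {Γ : Type*}

/-- bounded functions -/
def BdF (f : Γ → ℝ) : Prop := ∃ C, ∀ x, |f x| ≤ C

/-- the space of bounded functions -/
def Bd (Γ : Type*) : Submodule ℝ (Γ → ℝ) where
  carrier := {f | BdF f}
  add_mem' := by
    rintro f g ⟨C, hC⟩ ⟨D, hD⟩
    exact ⟨C + D, fun x => (abs_add_le _ _).trans (add_le_add (hC x) (hD x))⟩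
  zero_mem' := ⟨0, fun x => by simp⟩
  smul_mem' := by
    rintro c f ⟨C, hC⟩
    refine ⟨|c| * C, fun x => ?_⟩
    rw [Pi.smul_apply, smul_eq_mul, abs_mul]
    exact mul_le_mul_of_nonneg_left (hC x) (abs_nonneg c)

theorem BdF.add {f g : Γ → ℝ} (hf : BdF f) (hg : BdF g) : BdF (f + g) := (Bd Γ).add_mem hf hg
theorem BdF.smul {f : Γ → ℝ} (hf : BdF f) (c : ℝ) : BdF (c • f) := (Bd Γ).smul_mem c hf
theorem BdF.sub {f g : Γ → ℝ} (hf : BdF f) (hg : BdF g) : BdF (f - g) := (Bd Γ).sub_mem hf hg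
theorem BdF.abs {f : Γ → ℝ} (hf : BdF f) : BdF (fun x => |f x|) := by
  obtain ⟨C, hC⟩ := hf
  exact ⟨C, fun x => by rw [abs_abs]; exact hC x⟩
theorem BdF.sq {f : Γ → ℝ} (hf : BdF f) : BdF (fun x => f x ^ 2) := by
  obtain ⟨C, hC⟩ := hf
  refine ⟨C ^ 2, fun x => ?_⟩
  rw [abs_pow]
  exact pow_le_pow_left₀ (abs_nonneg _) (hC x) 2
theorem BdF.const (c : ℝ) : BdF (fun _ : Γ => c) := ⟨|c|, fun _ => le_rfl⟩
theorem BdF.sum {ι : Type*} (s : Finset ι) {f : ι → Γ → ℝ} (hf : ∀ i ∈ s, BdF (f i)) :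
    BdF (∑ i ∈ s, f i) := (Bd Γ).sum_mem hf

/-- a positive functional on bounded functions with total mass `M` -/
structure IsPos (M : ℝ) (π : (Γ → ℝ) → ℝ) : Prop where
  add : ∀ f g, BdF f → BdF g → π (f + g) = π f + π g
  smul : ∀ (c : ℝ) f, BdF f → π (c • f) = c * π f
  nonneg : ∀ f, BdF f → (∀ x, 0 ≤ f x) → 0 ≤ π f
  one : π (fun _ => 1) = M

section pos

variable {M : ℝ} {π : (Γ → ℝ) → ℝ} (hπ : IsPos M π)
include hπ

theorem IsPos.zero : π 0 = 0 := by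
  have := hπ.smul 0 0 (Bd Γ).zero_mem
  simpa using this

theorem IsPos.sub {f g : Γ → ℝ} (hf : BdF f) (hg : BdF g) : π (f - g) = π f - π g := by
  have h1 := hπ.add f ((-1 : ℝ) • g) hf (hg.smul _)
  rw [hπ.smul _ _ hg, neg_one_smul, ← sub_eq_add_neg] at h1
  rw [h1]
  ring

theorem IsPos.mono {f g : Γ → ℝ} (hf : BdF f) (hg : BdF g) (h : ∀ x, f x ≤ g x) : π f ≤ π g := by
  have h1 := hπ.nonneg (g - f) (hg.sub hf) (fun x => by
    rw [Pi.sub_apply]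
    exact sub_nonneg.2 (h x))
  rw [hπ.sub hg hf] at h1
  linarith

theorem IsPos.const (c : ℝ) : π (fun _ => c) = c * M := by
  have h1 := hπ.smul c (fun _ => 1) (BdF.const 1)
  rw [hπ.one] at h1
  rw [← h1]
  congr 1
  funext x
  simp

theorem IsPos.le_of_le {f : Γ → ℝ} (hf : BdF f) {c : ℝ} (h : ∀ x, f x ≤ c) : π f ≤ c * M := by
  rw [← hπ.const c]
  exact hπ.mono hf (BdF.const c) h

theorem IsPos.abs_le {f : Γ → ℝ} {C : ℝ} (h : ∀ x, |f x| ≤ C) : |π f| ≤ C * M := by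
  have hf : BdF f := ⟨C, h⟩
  refine _root_.abs_le.2 ⟨?_, hπ.le_of_le hf fun x => (_root_.abs_le.1 (h x)).2⟩
  have h1 := hπ.mono (BdF.const (-C)) hf fun x => (_root_.abs_le.1 (h x)).1
  rw [hπ.const] at h1
  linarith

theorem IsPos.sum {ι : Type*} (s : Finset ι) {f : ι → Γ → ℝ} (hf : ∀ i ∈ s, BdF (f i)) :
    π (∑ i ∈ s, f i) = ∑ i ∈ s, π (f i) := by
  classical
  induction s using Finset.induction_on with
  | empty => simpa using hπ.zero
  | insert a s ha ih =>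
    rw [Finset.sum_insert ha, Finset.sum_insert ha, hπ.add _ _ (hf a (Finset.mem_insert_self _ _))
      (BdF.sum s fun i hi => hf i (Finset.mem_insert_of_mem hi)),
      ih fun i hi => hf i (Finset.mem_insert_of_mem hi)]

end pos

/-- **Domination.** -/
theorem exists_pos [Nonempty Γ] {B : Set (Γ → ℝ)} (hB : IsBall B) {φ : (Γ → ℝ) → ℝ} (hφ : IsLin B φ)
    {ε M : ℝ} (ha : ∀ L, 0 ≤ L → ∀ h ∈ Bl B L, ∀ t, 0 ≤ t → (∀ x, |h x| ≤ t) → φ h ≤ ε * L + M * t) :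
    ∃ π : (Γ → ℝ) → ℝ, IsPos M π ∧ ∀ L, 0 ≤ L → ∀ h ∈ Bl B L, |φ h| ≤ π (fun x => |h x|) + ε * L := by
  classical
  let K : PointedCone ℝ (Bd Γ × ℝ) :=
    { carrier := {p | ∃ L, 0 ≤ L ∧ ∃ g ∈ Bl B L, (∀ x, |g x| ≤ p.1.1 x) ∧ p.2 ≤ φ g - ε * L}
      zero_mem' := ⟨0, le_rfl, 0, Bl_zero hB le_rfl, fun x => by simp, by
        rw [lin_zero hB hφ]; simp⟩
      add_mem' := by
        rintro p q ⟨L, hL, g, hg, h1, h2⟩ ⟨L', hL', g', hg', h1', h2'⟩
        refine ⟨L + L', add_nonneg hL hL', g + g', Bl_add hB hL hL' hg hg', fun x => ?_, ?_⟩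
        · exact (abs_add_le _ _).trans (add_le_add (h1 x) (h1' x))
        · rw [lin_add hB hφ (Wd_of hL hg) (Wd_of hL' hg')]
          have : (p + q).2 = p.2 + q.2 := rfl
          rw [this]
          linarith
      smul_mem' := by
        rintro ⟨c, hc⟩ p ⟨L, hL, g, hg, h1, h2⟩
        refine ⟨c * L, mul_nonneg hc hL, c • g, ?_, fun x => ?_, ?_⟩
        · have := Bl_smul hB hg c
          rwa [abs_of_nonneg hc] at this
        · have e : ((⟨c, hc⟩ : {c : ℝ // 0 ≤ c}) • p).1.1 x = c * p.1.1 x := rfl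
          rw [e, Pi.smul_apply, smul_eq_mul, abs_mul, abs_of_nonneg hc]
          exact mul_le_mul_of_nonneg_left (h1 x) hc
        · have e : ((⟨c, hc⟩ : {c : ℝ // 0 ≤ c}) • p).2 = c * p.2 := rfl
          rw [e, lin_smul hB hφ (Wd_of hL hg)]
          calc c * p.2 ≤ c * (φ g - ε * L) := mul_le_mul_of_nonneg_left h2 hc
            _ = c * φ g - ε * (c * L) := by ring }
  have hK : ∀ p : Bd Γ × ℝ, p ∈ K ↔ ∃ L, 0 ≤ L ∧ ∃ g ∈ Bl B L, (∀ x, |g x| ≤ p.1.1 x) ∧ p.2 ≤ φ g - ε * L :=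
    fun p => Iff.rfl
  let one : Bd Γ := ⟨fun _ => 1, BdF.const 1⟩
  let j : ℝ × ℝ →ₗ[ℝ] (Bd Γ × ℝ) :=
    { toFun := fun p => (p.1 • one, p.2)
      map_add' := fun p q => by simp [add_smul]
      map_smul' := fun c p => by simp [mul_smul] }
  have hj : Function.Injective j := by
    rintro ⟨t, s⟩ ⟨t', s'⟩ h
    have h1 : t • one = t' • one := congrArg Prod.fst h
    have h2 : s = s' := congrArg Prod.snd h
    obtain ⟨x⟩ := ‹Nonempty Γ›
    have h3 : (t • one).1 x = (t' • one).1 x := by rw [h1]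
    have h4 : t * 1 = t' * 1 := h3
    rw [mul_one, mul_one] at h4
    rw [h4, h2]
  let e := LinearEquiv.ofInjective j hj
  let f₀ : ℝ × ℝ →ₗ[ℝ] ℝ :=
    { toFun := fun p => M * p.1 - p.2
      map_add' := fun p q => by simp only [Prod.fst_add, Prod.snd_add]; ring
      map_smul' := fun c p => by simp only [Prod.smul_fst, Prod.smul_snd, smul_eq_mul, RingHom.id_apply]; ring }
  let F : (Bd Γ × ℝ) →ₗ.[ℝ] ℝ := ⟨LinearMap.range j, f₀ ∘ₗ e.symm.toLinearMap⟩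
  have hF : ∀ p (hp : j p ∈ F.domain), F ⟨j p, hp⟩ = M * p.1 - p.2 := by
    intro p hp
    have h1 : e.symm ⟨j p, hp⟩ = p := by
      rw [LinearEquiv.symm_apply_eq]
      rfl
    change f₀ (e.symm ⟨j p, hp⟩) = _
    rw [h1]
    rfl
  obtain ⟨Λ, hΛ1, hΛ2⟩ := riesz_extension K F (by
      rintro ⟨_, ⟨⟨t, s⟩, rfl⟩⟩ hx
      refine le_of_le_of_eq ?_ (hF (t, s) ⟨_, rfl⟩).symm
      obtain ⟨L, hL, g, hg, h1, h2⟩ := (hK _).1 hx
      have h3 : ∀ x, |g x| ≤ t := fun x => by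
        have := h1 x
        have e1 : (j (t, s)).1.1 x = t * 1 := rfl
        rwa [e1, mul_one] at this
      obtain ⟨x⟩ := ‹Nonempty Γ›
      have ht : 0 ≤ t := (abs_nonneg _).trans (h3 x)
      have h4 := ha L hL g hg t ht h3
      have e2 : (j (t, s)).2 = s := rfl
      rw [e2] at h2
      change 0 ≤ M * t - s
      linarith) (by
      rintro ⟨g, s⟩
      obtain ⟨C, hC⟩ := g.2
      refine ⟨⟨j (C, -s), ⟨_, rfl⟩⟩, ?_⟩
      refine (hK _).2 ⟨0, le_rfl, 0, Bl_zero hB le_rfl, fun x => ?_, ?_⟩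
      · have e1 : ((j (C, -s)) + (g, s)).1.1 x = C * 1 + g.1 x := rfl
        change |(0 : Γ → ℝ) x| ≤ ((j (C, -s)) + (g, s)).1.1 x
        rw [e1, Pi.zero_apply, abs_zero]
        have := (abs_le.1 (hC x)).1
        linarith
      · have e1 : ((j (C, -s)) + (g, s)).2 = -s + s := rfl
        change ((j (C, -s)) + (g, s)).2 ≤ _
        rw [e1, lin_zero hB hφ]
        simp)
  have hΛa : Λ (one, 0) = M := by
    have h1 := (hΛ1 ⟨j (1, 0), ⟨_, rfl⟩⟩).trans (hF (1, 0) ⟨_, rfl⟩)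
    have e1 : j (1, 0) = (one, 0) := by
      change ((1 : ℝ) • one, (0 : ℝ)) = (one, 0)
      rw [one_smul]
    rw [← e1]
    simpa using h1
  have hΛb : Λ (0, 1) = -1 := by
    have h1 := (hΛ1 ⟨j (0, 1), ⟨_, rfl⟩⟩).trans (hF (0, 1) ⟨_, rfl⟩)
    have e1 : j (0, 1) = (0, 1) := by
      change ((0 : ℝ) • one, (1 : ℝ)) = (0, 1)
      rw [zero_smul]
    rw [← e1]
    simpa using h1
  have hΛc : ∀ (g : Bd Γ) (s : ℝ), Λ (g, s) = Λ (g, 0) - s := by
    intro g s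
    have e1 : (g, s) = (g, (0 : ℝ)) + s • ((0 : Bd Γ), (1 : ℝ)) := by
      ext1
      · simp
      · simp
    rw [e1, map_add, map_smul, hΛb]
    simp [sub_eq_add_neg]
  let π : (Γ → ℝ) → ℝ := fun f => if hf : BdF f then Λ (⟨f, hf⟩, 0) else 0
  have hπ : ∀ f (hf : BdF f), π f = Λ (⟨f, hf⟩, 0) := fun f hf => by
    simp only [π, hf, dif_pos]
  refine ⟨π, ⟨?_, ?_, ?_, ?_⟩, ?_⟩
  · intro f g hf hg
    rw [hπ f hf, hπ g hg, hπ (f + g) (hf.add hg), ← map_add]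
    congr 1
    ext1
    · rfl
    · simp
  · intro c f hf
    rw [hπ f hf, hπ (c • f) (hf.smul c)]
    have : ((⟨c • f, hf.smul c⟩ : Bd Γ), (0 : ℝ)) = c • ((⟨f, hf⟩ : Bd Γ), (0 : ℝ)) := by
      ext1
      · rfl
      · simp
    rw [this, map_smul, smul_eq_mul]
  · intro f hf h0
    rw [hπ f hf]
    refine hΛ2 _ ((hK _).2 ⟨0, le_rfl, 0, Bl_zero hB le_rfl, fun x => ?_, ?_⟩)
    · rw [Pi.zero_apply, abs_zero]
      exact h0 x
    · rw [lin_zero hB hφ]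
      simp
  · rw [hπ _ (BdF.const 1)]
    exact hΛa
  · have key : ∀ L, 0 ≤ L → ∀ h ∈ Bl B L, φ h ≤ π (fun x => |h x|) + ε * L := by
      intro L hL h hh
      have hb : BdF (fun x => |h x|) := BdF.abs ⟨L, Bl_bdd hB hL hh⟩
      have h1 := hΛ2 ((⟨fun x => |h x|, hb⟩ : Bd Γ), φ h - ε * L)
        ((hK _).2 ⟨L, hL, h, hh, fun x => le_rfl, le_rfl⟩)
      rw [hΛc, ← hπ _ hb] at h1
      linarith
    intro L hL h hh
    refine abs_le.2 ⟨?_, key L hL h hh⟩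
    have h1 := Bl_smul hB hh (-1)
    rw [abs_neg, abs_one, one_mul, neg_one_smul] at h1
    have h2 := key L hL (-h) h1
    rw [lin_neg hB hφ (Wd_of hL hh)] at h2
    have e1 : (fun x => |(-h) x|) = fun x => |h x| := by
      funext x
      rw [Pi.neg_apply, abs_neg]
    rw [e1] at h2
    linarith

end Pool.Agent.MP312e4a
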