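import Pool.Agent.Lib.MP_312e4a.Ultra

/-!
# Selection of almost disjoint witnesses
-/

namespace Pool.Agent.MP312e4a

open Filter Topology

variable {Γ : Type*}

theorem selection {B : Set (Γ → ℝ)} (hB : IsBall B) (φ : ℕ → (Γ → ℝ) → ℝ) (hφ : ∀ n, IsLin B (φ n))
    (ht : ∀ h ∈ B, Tendsto (fun n => φ n h) atTop (𝓝 0)) {M : ℝ} (π : ℕ → (Γ → ℝ) → ℝ)
    (hπ : ∀ n, IsPos M (π n)) {δ : ℝ} (hδ : 0 < δ) (hC : ∀ k : ℕ, ∃ g ∈ B, ∀ i ≤ k, 5 * δ ≤ φ i g) :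
    ∃ (n : ℕ → ℕ) (h : ℕ → Γ → ℝ) (s : ℕ → ℝ), StrictMono n ∧
      (∀ k, h k ∈ B ∧ (∀ x, 0 ≤ h k x) ∧ δ ≤ |φ (n k) (h k)|) ∧
      (∀ k, 0 < s k ∧ s k ≤ δ / 100 * (1 / 2) ^ k) ∧ ∀ i k, i < k → π (n k) (h i) ≤ 2 * s i := by
  classical
  obtain ⟨σ, hσ, hlim⟩ := exists_ultra π hπ
  -- the data `(n, h, s)`
  obtain ⟨f, hf1, hf2⟩ := exists_seq_of_forall_finset_exists
    (fun p : ℕ × (Γ → ℝ) × ℝ => p.2.1 ∈ B ∧ (∀ x, 0 ≤ p.2.1 x) ∧ δ ≤ |φ p.1 p.2.1| ∧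
      0 < p.2.2 ∧ p.2.2 ≤ δ / 100 ∧ σ p.2.1 ≤ p.2.2)
    (fun p p' => p.1 < p'.1 ∧ p'.2.2 ≤ p.2.2 / 2 ∧ π p'.1 p.2.1 ≤ 2 * p.2.2) (by
      intro S hS
      -- the new tolerance
      obtain ⟨τ, hτ0, hτ1, hτ2⟩ : ∃ τ : ℝ, 0 < τ ∧ τ ≤ δ / 100 ∧ ∀ p ∈ S, τ ≤ p.2.2 / 2 := by
        induction S using Finset.induction_on with
        | empty => exact ⟨δ / 100, by positivity, le_rfl, by simp⟩
        | insert a S ha ih =>
          obtain ⟨τ, h0, h1, h2⟩ := ih fun x hx => hS x (Finset.mem_insert_of_mem hx)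
          have h3 := (hS a (Finset.mem_insert_self _ _)).2.2.2.1
          refine ⟨min τ (a.2.2 / 2), lt_min h0 (half_pos h3), (min_le_left _ _).trans h1, ?_⟩
          intro p hp
          rcases Finset.mem_insert.1 hp with rfl | hp
          · exact min_le_right _ _
          · exact (min_le_left _ _).trans (h2 p hp)
      obtain ⟨N, hN⟩ := small_witness hB φ hφ ht hσ hδ hC hτ0
      -- a good index
      have h1 : ∀ᶠ n in (hyperfilter ℕ : Filter ℕ), ∀ p ∈ S, π n p.2.1 ≤ 2 * p.2.2 := by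
        rw [Filter.eventually_all_finset]
        intro p hp
        have h2 := hS p hp
        have h3 := hlim p.2.1 (ball_bdF hB h2.1)
        have h4 : σ p.2.1 < 2 * p.2.2 := by
          have := h2.2.2.2.1
          have := h2.2.2.2.2.2
          linarith
        exact (h3.eventually_lt_const h4).mono fun n hn => hn.le
      have h2 : ∀ᶠ n in (hyperfilter ℕ : Filter ℕ), N ≤ n ∧ ∀ p ∈ S, p.1 < n := by
        have h3 : (hyperfilter ℕ : Filter ℕ) ≤ atTop := by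
          rw [← Nat.cofinite_eq_atTop]
          exact hyperfilter_le_cofinite
        refine Filter.Eventually.filter_mono h3 ((eventually_ge_atTop N).and ?_)
        rw [Filter.eventually_all_finset]
        intro p _
        exact eventually_gt_atTop p.1
      obtain ⟨n, hn1, hn2, hn3⟩ := (h1.and h2).exists
      obtain ⟨h, hh1, hh2, hh3, hh4⟩ := hN n hn2
      exact ⟨(n, h, τ), ⟨hh1, hh2, hh4, hτ0, hτ1, hh3⟩, fun p hp => ⟨hn3 p hp, hτ2 p hp, hn1 p hp⟩⟩)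
  refine ⟨fun k => (f k).1, fun k => (f k).2.1, fun k => (f k).2.2, ?_, ?_, ?_, ?_⟩
  · intro i k hik
    exact (hf2 i k hik).1
  · intro k
    exact ⟨(hf1 k).1, (hf1 k).2.1, (hf1 k).2.2.1⟩
  · intro k
    refine ⟨(hf1 k).2.2.2.1, ?_⟩
    induction k with
    | zero => simpa using (hf1 0).2.2.2.2.1
    | succ k ih =>
      have h1 := (hf2 k (k + 1) (Nat.lt_succ_self k)).2.1
      rw [pow_succ]
      linarith
  · intro i k hik
    exact (hf2 i k hik).2.2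

end Pool.Agent.MP312e4a
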