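import Pool.Agent.Lib.MP_312e4a.Pos
import Pool.Agent.Lib.MP_312e4a.Mini

/-!
# Limits of positive functionals and the parallelogram argument
-/

namespace Pool.Agent.MP312e4a

open Filter Topology

variable {Γ : Type*}

/-- limits along a nonprincipal ultrafilter -/
theorem exists_ultra {M : ℝ} (π : ℕ → (Γ → ℝ) → ℝ) (hπ : ∀ n, IsPos M (π n)) :
    ∃ σ : (Γ → ℝ) → ℝ, IsPos M σ ∧
      ∀ f, BdF f → Tendsto (fun n => π n f) (hyperfilter ℕ : Filter ℕ) (𝓝 (σ f)) := by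
  classical
  have key : ∀ f : Γ → ℝ, BdF f → ∃ l, Tendsto (fun n => π n f) (hyperfilter ℕ : Filter ℕ) (𝓝 l) := by
    rintro f ⟨C, hC⟩
    have hc : IsCompact (Set.Icc (-(C * M)) (C * M)) := isCompact_Icc
    have h1 : ((hyperfilter ℕ).map fun n => π n f : Filter ℝ) ≤ 𝓟 (Set.Icc (-(C * M)) (C * M)) := by
      rw [le_principal_iff, Ultrafilter.mem_coe, Ultrafilter.mem_map]
      refine Filter.univ_mem' fun n => ?_
      exact _root_.abs_le.1 ((hπ n).abs_le hC)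
    obtain ⟨l, -, hl⟩ := hc.ultrafilter_le_nhds _ h1
    exact ⟨l, hl⟩
  choose! σ hσ using key
  refine ⟨σ, ⟨?_, ?_, ?_, ?_⟩, hσ⟩
  · intro f g hf hg
    refine tendsto_nhds_unique (hσ _ (hf.add hg)) ?_
    have := (hσ f hf).add (hσ g hg)
    refine this.congr fun n => ?_
    rw [(hπ n).add f g hf hg]
  · intro c f hf
    refine tendsto_nhds_unique (hσ _ (hf.smul c)) ?_
    have := (hσ f hf).const_mul c
    refine this.congr fun n => ?_
    rw [(hπ n).smul c f hf]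
  · intro f hf h0
    exact ge_of_tendsto' (hσ f hf) fun n => (hπ n).nonneg f hf h0
  · refine tendsto_nhds_unique (hσ _ (BdF.const 1)) ?_
    refine tendsto_const_nhds.congr fun n => ?_
    rw [(hπ n).one]

theorem ball_bdF {B : Set (Γ → ℝ)} (hB : IsBall B) {h : Γ → ℝ} (hh : h ∈ B) : BdF h :=
  ⟨1, hB.bdd h hh⟩

/-- **The parallelogram step.** -/
theorem small_witness {B : Set (Γ → ℝ)} (hB : IsBall B) (φ : ℕ → (Γ → ℝ) → ℝ) (hφ : ∀ n, IsLin B (φ n))
    (ht : ∀ h ∈ B, Tendsto (fun n => φ n h) atTop (𝓝 0)) {M : ℝ} {σ : (Γ → ℝ) → ℝ} (hσ : IsPos M σ)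
    {δ : ℝ} (hδ : 0 < δ) (hC : ∀ k : ℕ, ∃ g ∈ B, ∀ i ≤ k, 5 * δ ≤ φ i g) {τ : ℝ} (hτ : 0 < τ) :
    ∃ N, ∀ n, N ≤ n → ∃ h ∈ B, (∀ x, 0 ≤ h x) ∧ σ h ≤ τ ∧ δ ≤ |φ n h| := by
  classical
  have hM : 0 ≤ M := by
    rw [← hσ.one]
    exact hσ.nonneg _ (BdF.const 1) fun _ => zero_le_one
  set β : ℝ := τ / (M + 1) with hβ
  have hβ0 : 0 < β := div_pos hτ (by linarith)
  set η : ℝ := β * τ / 2 with hη
  have hη0 : 0 < η := by positivity
  let C : ℕ → Set (Γ → ℝ) := fun k => {g | g ∈ B ∧ ∀ i ≤ k, 5 * δ ≤ φ i g}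
  let q : (Γ → ℝ) → ℝ := fun g => σ (fun x => g x ^ 2)
  have hq0 : ∀ g, BdF g → 0 ≤ q g := fun g hg => hσ.nonneg _ hg.sq fun x => sq_nonneg _
  let A : Set ℝ := {r | ∀ k, ∃ g ∈ C k, q g ≤ r}
  have hA1 : A.Nonempty := by
    refine ⟨M, fun k => ?_⟩
    obtain ⟨g, hg, hg'⟩ := hC k
    refine ⟨g, ⟨hg, hg'⟩, ?_⟩
    have : q g ≤ 1 * M := hσ.le_of_le (ball_bdF hB hg).sq fun x => by
      have h1 := hB.bdd g hg x
      rw [← sq_abs]
      exact pow_le_one₀ (abs_nonneg _) h1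
    linarith
  have hA2 : BddBelow A := by
    refine ⟨0, fun r hr => ?_⟩
    obtain ⟨g, hg, h1⟩ := hr 0
    exact (hq0 g (ball_bdF hB hg.1)).trans h1
  set D := sInf A with hD
  -- `D - η` is not in `A`
  have h1 : ∃ k, ∀ g ∈ C k, D - η < q g := by
    by_contra hcon
    push Not at hcon
    have h2 : D - η ∈ A := fun k => by
      obtain ⟨g, hg, hg'⟩ := hcon k
      exact ⟨g, hg, hg'⟩
    have h3 := csInf_le hA2 h2
    linarith
  obtain ⟨k, hk⟩ := h1
  -- elements of `A` close to `D`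
  obtain ⟨r, hr, hrD⟩ := exists_lt_of_csInf_lt hA1 (show sInf A < D + η by linarith)
  obtain ⟨gk, hgk, hgk'⟩ := hr k
  -- large `n`
  have h4 : ∀ᶠ n in atTop, |φ n gk| < δ := by
    have := (ht gk hgk.1).abs
    rw [abs_zero] at this
    exact this.eventually_lt_const hδ
  obtain ⟨N, hN⟩ := eventually_atTop.1 h4
  refine ⟨max N k, fun n hn => ?_⟩
  have hnN : N ≤ n := (le_max_left _ _).trans hn
  have hnk : k ≤ n := (le_max_right _ _).trans hn
  obtain ⟨gn, hgn, hgn'⟩ := hr n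
  -- the half difference and the midpoint
  set u : Γ → ℝ := (1 / 2 : ℝ) • gn + (-1 / 2 : ℝ) • gk with hu
  set v : Γ → ℝ := (1 / 2 : ℝ) • gn + (1 / 2 : ℝ) • gk with hv
  have huB : u ∈ B := hB.comb gn hgn.1 gk hgk.1 _ _ (by norm_num)
  have hvB : v ∈ B := hB.comb gn hgn.1 gk hgk.1 _ _ (by norm_num)
  have hvC : v ∈ C k := by
    refine ⟨hvB, fun i hi => ?_⟩
    have e1 : φ i v = 1 / 2 * φ i gn + 1 / 2 * φ i gk := lin_sum hB (hφ i) hgn.1 hgk.1 _ _
    have e2 := hgn.2 i (hi.trans hnk)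
    have e3 := hgk.2 i hi
    rw [e1]
    linarith
  have h5 := hk v hvC
  have h6 : q u + q v = 1 / 2 * q gn + 1 / 2 * q gk := by
    have b1 := (ball_bdF hB hgn.1).sq
    have b2 := (ball_bdF hB hgk.1).sq
    have b3 := (ball_bdF hB huB).sq
    have b4 := (ball_bdF hB hvB).sq
    change σ (fun x => u x ^ 2) + σ (fun x => v x ^ 2) = 1 / 2 * σ (fun x => gn x ^ 2) + 1 / 2 * σ (fun x => gk x ^ 2)
    rw [← hσ.add _ _ b3 b4, ← hσ.smul _ _ b1, ← hσ.smul _ _ b2, ← hσ.add _ _ (b1.smul _) (b2.smul _)]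
    congr 1
    funext x
    simp only [hu, hv, Pi.add_apply, Pi.smul_apply, smul_eq_mul]
    ring
  have h7 : q u ≤ 2 * η := by linarith
  have h8 : φ n u = 1 / 2 * φ n gn + -1 / 2 * φ n gk := lin_sum hB (hφ n) hgn.1 hgk.1 _ _
  have h9 : 2 * δ ≤ φ n u := by
    have e1 := hgn.2 n le_rfl
    have e2 := (_root_.abs_lt.1 (hN n hnN)).2
    rw [h8]
    linarith
  -- positive and negative parts
  have hmB : (fun x => max (u x) 0) ∈ B := (Bl_one hB).1 (Bl_pos hB zero_le_one ((Bl_one hB).2 huB))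
  have hnB' : (-1 : ℝ) • u ∈ B := ball_smul hB huB (by simp)
  have hnB : (fun x => max (((-1 : ℝ) • u) x) 0) ∈ B :=
    (Bl_one hB).1 (Bl_pos hB zero_le_one ((Bl_one hB).2 hnB'))
  have hdec : u = (1 : ℝ) • (fun x => max (u x) 0) + (-1 : ℝ) • (fun x => max (((-1 : ℝ) • u) x) 0) := by
    funext x
    simp only [Pi.add_apply, Pi.smul_apply, smul_eq_mul]
    rcases le_total (u x) 0 with h | h
    · rw [max_eq_right h, max_eq_left (by linarith)]
      ring
    · rw [max_eq_left h, max_eq_right (by linarith)]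
      ring
  have h10 : φ n u = 1 * φ n (fun x => max (u x) 0) + -1 * φ n (fun x => max (((-1 : ℝ) • u) x) 0) := by
    conv_lhs => rw [hdec]
    exact lin_sum hB (hφ n) hmB hnB _ _
  -- the bound for `σ |u|`
  have h11 : ∀ h : Γ → ℝ, BdF h → (∀ x, h x ≤ |u x|) → σ h ≤ τ := by
    intro h hh hle
    have e1 : ∀ x, h x ≤ β / 2 + (1 / (2 * β)) * (u x ^ 2) := by
      intro x
      refine (hle x).trans ?_
      have e2 : 0 ≤ (|u x| - β) ^ 2 := sq_nonneg _
      have e3 : u x ^ 2 = |u x| ^ 2 := (sq_abs _).symm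
      rw [e3]
      have e4 : β / 2 + 1 / (2 * β) * |u x| ^ 2 - |u x| = (|u x| - β) ^ 2 / (2 * β) := by
        field_simp
        ring
      have e5 : 0 ≤ (|u x| - β) ^ 2 / (2 * β) := by positivity
      linarith
    have b3 := (ball_bdF hB huB).sq
    have e6 := hσ.mono hh (((BdF.const (β / 2)).add (b3.smul (1 / (2 * β))))) (fun x => by
      simpa using e1 x)
    rw [hσ.add _ _ (BdF.const _) (b3.smul _), hσ.smul _ _ b3, hσ.const] at e6
    have e7 : 1 / (2 * β) * σ (fun x => u x ^ 2) ≤ 1 / (2 * β) * (2 * η) :=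
      mul_le_mul_of_nonneg_left h7 (by positivity)
    have e8 : 1 / (2 * β) * (2 * η) = τ / 2 := by
      rw [hη]
      field_simp
    have e9 : β / 2 * M ≤ τ / 2 := by
      have e10 : β * (M + 1) = τ := by
        rw [hβ]
        field_simp
      nlinarith
    linarith
  have h12 : δ ≤ |φ n (fun x => max (u x) 0)| ∨ δ ≤ |φ n (fun x => max (((-1 : ℝ) • u) x) 0)| := by
    by_contra hcon
    push Not at hcon
    have e1 := (_root_.abs_lt.1 hcon.1).2
    have e2 := (_root_.abs_lt.1 hcon.2).1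
    linarith
  rcases h12 with h12 | h12
  · refine ⟨_, hmB, fun x => le_max_right _ _, h11 _ (ball_bdF hB hmB) fun x => ?_, h12⟩
    exact max_le (le_abs_self _) (abs_nonneg _)
  · refine ⟨_, hnB, fun x => le_max_right _ _, h11 _ (ball_bdF hB hnB) fun x => ?_, h12⟩
    refine max_le ?_ (abs_nonneg _)
    rw [Pi.smul_apply, smul_eq_mul, neg_one_mul]
    exact neg_le_abs _

end Pool.Agent.MP312e4a
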